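import Pool.Agent.Work.MP_d87e04_lc.CF.Psub
import Pool.Agent.Work.MP_d87e04_lc.CF.Atp
import Pool.Agent.Work.MP_d87e04_lc.CF.Lin
import Pool.Agent.Work.MP_d87e04_lc.CF.Ov
import Pool.Agent.Work.MP_d87e04_lc.CF.Dich

/-!
# Tracked symbols: definitions

As in `CF`, but a set `T` of function symbols is tracked, besides the variables. Ancestors are now
finite sets: the `T`-symbols created by a rule have all the `T`-symbols of its left side as
ancestors.
-/

set_option autoImplicit false

namespace Pool.Agent.Work.MP_d87e04_lc.CG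

open Pool.Agent.Work.MP_d87e04_lc.CF

universe u

/-! ## The abstract calculus -/

/-- The abstract calculus of tracked points and ancestors. -/
structure Cal (T S P : Type*) where
  /-- tracked points -/
  lv : T → Finset P
  /-- source -/
  src : S → T
  /-- target -/
  tgt : S → T
  /-- ancestors of a point of the target -/
  anc : S → P → Finset P
  /-- the points of the source below the redexes -/
  sup : S → Finset P

namespace Cal

variable {T S P : Type*} [DecidableEq P] (K : Cal T S P)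

/-- A square: `tgt A ← src A = src B → tgt B` is closed by `C` from `tgt A` and `D` from `tgt B`. -/
structure Sq (A B C D : S) : Prop where
  src_eq : K.src A = K.src B
  srcC : K.src C = K.tgt A
  srcD : K.src D = K.tgt B
  tgt_eq : K.tgt C = K.tgt D
  comm : ∀ w ∈ K.lv (K.tgt C), ∀ e ∈ K.anc C w, ∀ h ∈ K.anc D w,
    ∃ f ∈ K.anc A e, f ∈ K.anc B h
  inj : ∀ w ∈ K.lv (K.tgt C), ∀ w' ∈ K.lv (K.tgt C), ∀ e ∈ K.anc C w, e ∈ K.anc C w' →
    ∀ h ∈ K.anc D w, h ∈ K.anc D w' → w = w'
  supC : ∀ p ∈ K.sup C, K.anc A p ⊆ K.sup B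
  supD : ∀ p ∈ K.sup D, K.anc B p ⊆ K.sup A

/-- A triangle: `tgt X ← src X = src Y → tgt Y` is closed by `Z` from `tgt X` to `tgt Y`. -/
structure Tri (X Y Z : S) : Prop where
  src_eq : K.src X = K.src Y
  srcZ : K.src Z = K.tgt X
  tgtZ : K.tgt Z = K.tgt Y
  comm : ∀ e ∈ K.lv (K.tgt Y), ∀ h ∈ K.anc Z e, ∃ f ∈ K.anc X h, f ∈ K.anc Y e
  supZ : ∀ p ∈ K.sup Z, K.anc X p ⊆ K.sup X ∪ K.sup Y
  meet : (K.sup X ∩ K.sup Y).Nonempty

/-- `A` is split into `α` followed by the parallel rest `A'`. -/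
structure Split (A α A' : S) : Prop where
  srcα : K.src α = K.src A
  mid : K.src A' = K.tgt α
  tgtA' : K.tgt A' = K.tgt A
  sub : ∀ e ∈ K.lv (K.tgt A), ∀ m ∈ K.anc A' e, K.anc α m ⊆ K.anc A e
  inj : ∀ e ∈ K.lv (K.tgt A), ∀ m ∈ K.anc A' e, ∀ m' ∈ K.anc A' e, ∀ f ∈ K.anc α m,
    f ∈ K.anc α m' → m = m'
  supα : K.sup α ⊆ K.sup A
  supA' : ∀ p ∈ K.sup A', ∀ f ∈ K.anc α p, f ∈ K.sup A ∧ f ∉ K.sup α ∧
    ∀ p' ∈ K.lv (K.tgt α), f ∈ K.anc α p' → p' = p

/-- The general properties of a step. -/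
structure Nice (A : S) : Prop where
  anc_sub : ∀ e ∈ K.lv (K.tgt A), K.anc A e ⊆ K.lv (K.src A)
  anc_ne : ∀ e ∈ K.lv (K.tgt A), (K.anc A e).Nonempty
  sup_sub : K.sup A ⊆ K.lv (K.src A)
  desc : ∀ p ∈ K.lv (K.src A), p ∉ K.sup A → ∃ e ∈ K.lv (K.tgt A), p ∈ K.anc A e

/-- The rewrite relation of a set of steps. -/
def Rel (G : Set S) (x y : T) : Prop := ∃ A ∈ G, K.src A = x ∧ K.tgt A = y

/-- Every peak of two steps is closed by a square, or can be split so that a triangle appears. -/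
def Peaks (G : Set S) : Prop := ∀ A ∈ G, ∀ B ∈ G, K.src A = K.src B →
  (∃ C ∈ G, ∃ D ∈ G, K.Sq A B C D) ∨
  ∃ α ∈ G, ∃ A' ∈ G, ∃ β ∈ G, ∃ B' ∈ G, ∃ Z ∈ G,
    K.Split A α A' ∧ K.Split B β B' ∧ (K.Tri α β Z ∨ K.Tri β α Z)

/-- Weights on the source from weights on the target. -/
def up (A : S) (w : P → ℕ) (p : P) : ℕ :=
  max 1 (∑ e ∈ (K.lv (K.tgt A)).filter (fun e => p ∈ K.anc A e), w e)

/-- Weights on the target from weights on the source. -/
def dn (A : S) (w : P → ℕ) (p : P) : ℕ := ∑ f ∈ K.anc A p, w f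

/-- The cost of a step with weights `l`, `r` on its source. -/
def cost (A : S) (l r : P → ℕ) : ℕ := ∑ p ∈ K.sup A, l p * r p

end Cal

/-! ## Terms -/

variable {F : Type u} {ar : F → ℕ}

open Classical in
/-- The positions of the symbols of `T`. -/
noncomputable def tn (T : Set F) : Tm F ar → Finset (List ℕ)
  | .var _ => ∅
  | .app f a => (if f ∈ T then {[]} else ∅) ∪
      Finset.univ.biUnion fun i : Fin (ar f) => (tn T (a i)).image (List.cons i.1)

open Classical in
/-- The tracked points: the positions of the variables and of the symbols of `T`. -/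
noncomputable def tv (T : Set F) : Tm F ar → Finset (List ℕ)
  | .var _ => {[]}
  | .app f a => (if f ∈ T then {[]} else ∅) ∪
      Finset.univ.biUnion fun i : Fin (ar f) => (tv T (a i)).image (List.cons i.1)

/-- The ancestors of a position of the target. -/
noncomputable def ac (T : Set F) : PT F ar → List ℕ → Finset (List ℕ)
  | .var _, p => {p}
  | .app _ _, [] => {[]}
  | .app f A, i :: p => if h : i < ar f then (ac T (A ⟨i, h⟩) p).image (List.cons i)
      else {i :: p}
  | .rl q _, p => if p ∈ tn T q.2 then tn T q.1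
      else {vpos q.1 (along q.2 p).1 ++ (along q.2 p).2}

/-- The tracked points of the source below the redexes. -/
noncomputable def sp (T : Set F) : PT F ar → Finset (List ℕ)
  | .var _ => ∅
  | .app f A => Finset.univ.biUnion fun i : Fin (ar f) => (sp T (A i)).image (List.cons i.1)
  | .rl q σ => tv T (q.1.subst σ)

/-- The calculus of parallel steps with the tracked symbols `T`. -/
noncomputable def cal (ar : F → ℕ) (T : Set F) : Cal (Tm F ar) (PT F ar) (List ℕ) where
  lv := tv T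
  src := PT.src
  tgt := PT.tgt
  anc := ac T
  sup := sp T

open Classical in
/-- Every maximal subterm with a root outside `N` is replaced by a variable which encodes its
position (with the prefix `k`). -/
noncomputable def cut (N : Set (List ℕ)) : List ℕ → Tm F ar → Tm F ar
  | k, .var _ => .var (enc k)
  | k, .app f a => if k ∈ N then .app f fun i => cut N (k ++ [i.1]) (a i) else .var (enc k)

/-- Standing assumptions on the rules. -/
structure Cg (R : Set (Rule F ar)) (T : Set F) : Prop where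
  trs : IsTRS R
  ll : LeftLinear R
  cr : ∀ q ∈ R, (tn T q.2).Nonempty → (tn T q.1).Nonempty
  ne : (∀ q ∈ R, (tn T q.1).Nonempty) ∨ ∀ f : F, ar f = 0 → f ∈ T

/-- The non-variable positions of `g` and of `l` at `p`. -/
def NN (g l : Tm F ar) (p : List ℕ) : Set (List ℕ) :=
  {k | (∃ f a, g.subAt k = some (Tm.app f a)) ∨
    ∃ m f a, k = p ++ m ∧ l.subAt m = some (Tm.app f a)}

/-- Some `T`-symbol of `l` (overlapping `g` at `p`) is below a variable of `g` which occurs in
`d`: it survives in `s`. -/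
def InhS (T : Set F) (l g d : Tm F ar) (p : List ℕ) : Prop :=
  ∃ m₁ m₂ y, m₁ ++ m₂ ∈ tn T l ∧ g.subAt (p ++ m₁) = some (Tm.var y) ∧ 0 < d.occ y

/-- Some `T`-symbol of `g` is not below `p`, or below a variable of `l` which occurs in `r`: it
survives in `t`. -/
def InhT (T : Set F) (l r g : Tm F ar) (p : List ℕ) : Prop :=
  (∃ n ∈ tn T g, ¬ p <+: n) ∨
    ∃ m₁ m₂ x, p ++ (m₁ ++ m₂) ∈ tn T g ∧ l.subAt m₁ = some (Tm.var x) ∧ 0 < r.occ x

/-- The condition on an overlap of `l → r` with `g → d` at `p`. -/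
def OvC (T : Set F) (l r g d : Tm F ar) (p : List ℕ) : Prop :=
  ((∃ m ∈ tn T l, p ++ m ∈ tn T g) ∨ tn T r = ∅ ∨ tn T d = ∅) ∧
    (¬ InhS T l g d p ∨ ¬ InhT T l r g p)

end Pool.Agent.Work.MP_d87e04_lc.CG
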