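import Pool.Agent.Work.MP_d87e04_lc.CG.TNice

/-!
# Module TApp (M): squares, splittings and triangles inside a context

Casework on positions `[]` and `i :: p` (`mem_tv_cons`, `mem_sp_cons`, `nil_mem_tv`,
`nil_not_mem_sp`, `ac`, `ac_ofTm`, `sp_ofTm`, `PT.src_ofTm`, `PT.tgt_ofTm`,
`Function.update_self`, `Function.update_of_ne`). Compare `CF/App.lean`.
-/

set_option autoImplicit false

namespace Pool.Agent.Work.MP_d87e04_lc.CG

open Pool.Agent.Work.MP_d87e04_lc.CF

universe u

variable {F : Type u} {ar : F → ℕ} {T : Set F}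

private theorem mem_ac_cons {f : F} {A : Fin (ar f) → PT F ar} {i : ℕ} {p q : List ℕ}
    (h : i < ar f) :
    q ∈ ac T (PT.app f A) (i :: p) ↔ ∃ q', q' ∈ ac T (A ⟨i, h⟩) p ∧ q = i :: q' := by
  simp only [ac, dif_pos h, Finset.mem_image]
  constructor
  · rintro ⟨a, ha, rfl⟩
    exact ⟨a, ha, rfl⟩
  · rintro ⟨a, ha, rfl⟩
    exact ⟨a, ha, rfl⟩

private theorem mem_ac_nil {f : F} {A : Fin (ar f) → PT F ar} {q : List ℕ} :
    q ∈ ac T (PT.app f A) [] ↔ q = [] := by
  simp only [ac, Finset.mem_singleton]

theorem sq_app {f : F} {A B C D : Fin (ar f) → PT F ar}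
    (h : ∀ i, (cal ar T).Sq (A i) (B i) (C i) (D i)) :
    (cal ar T).Sq (PT.app f A) (PT.app f B) (PT.app f C) (PT.app f D) := by
  refine ⟨?_, ?_, ?_, ?_, ?_, ?_, ?_, ?_⟩
  · change Tm.app f (fun i => (A i).src) = Tm.app f (fun i => (B i).src)
    congr 1
    funext i
    exact (h i).src_eq
  · change Tm.app f (fun i => (C i).src) = Tm.app f (fun i => (A i).tgt)
    congr 1
    funext i
    exact (h i).srcC
  · change Tm.app f (fun i => (D i).src) = Tm.app f (fun i => (B i).tgt)
    congr 1
    funext i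
    exact (h i).srcD
  · change Tm.app f (fun i => (C i).tgt) = Tm.app f (fun i => (D i).tgt)
    congr 1
    funext i
    exact (h i).tgt_eq
  · change ∀ w ∈ tv T (Tm.app f fun i => (C i).tgt), ∀ e ∈ ac T (PT.app f C) w,
      ∀ h ∈ ac T (PT.app f D) w, ∃ g ∈ ac T (PT.app f A) e, g ∈ ac T (PT.app f B) h
    intro w hw e he k hk
    cases w with
    | nil =>
      rw [mem_ac_nil] at he hk
      subst he
      subst hk
      exact ⟨[], mem_ac_nil.2 rfl, mem_ac_nil.2 rfl⟩
    | cons i w =>
      obtain ⟨hi, hw⟩ := mem_tv_cons.1 hw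
      obtain ⟨e', he', rfl⟩ := (mem_ac_cons hi).1 he
      obtain ⟨k', hk', rfl⟩ := (mem_ac_cons hi).1 hk
      obtain ⟨g, hg1, hg2⟩ := (h ⟨i, hi⟩).comm w hw e' he' k' hk'
      exact ⟨i :: g, (mem_ac_cons hi).2 ⟨g, hg1, rfl⟩, (mem_ac_cons hi).2 ⟨g, hg2, rfl⟩⟩
  · change ∀ w ∈ tv T (Tm.app f fun i => (C i).tgt), ∀ w' ∈ tv T (Tm.app f fun i => (C i).tgt),
      ∀ e ∈ ac T (PT.app f C) w, e ∈ ac T (PT.app f C) w' →
      ∀ h ∈ ac T (PT.app f D) w, h ∈ ac T (PT.app f D) w' → w = w'
    intro w hw w' hw' e he he' k hk hk'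
    cases w with
    | nil =>
      cases w' with
      | nil => rfl
      | cons j w' =>
        obtain ⟨hj, _⟩ := mem_tv_cons.1 hw'
        rw [mem_ac_nil] at he
        obtain ⟨_, _, h1⟩ := (mem_ac_cons hj).1 he'
        rw [he] at h1
        exact absurd h1 (by simp)
    | cons i w =>
      obtain ⟨hi, hw⟩ := mem_tv_cons.1 hw
      cases w' with
      | nil =>
        rw [mem_ac_nil] at he'
        obtain ⟨_, _, h1⟩ := (mem_ac_cons hi).1 he
        rw [he'] at h1
        exact absurd h1 (by simp)
      | cons j w' =>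
        obtain ⟨hj, hw'⟩ := mem_tv_cons.1 hw'
        obtain ⟨e1, he1, h1⟩ := (mem_ac_cons hi).1 he
        obtain ⟨e2, he2, h2⟩ := (mem_ac_cons hj).1 he'
        obtain ⟨k1, hk1, h3⟩ := (mem_ac_cons hi).1 hk
        obtain ⟨k2, hk2, h4⟩ := (mem_ac_cons hj).1 hk'
        rw [h1] at h2
        rw [h3] at h4
        injection h2 with hij h2
        subst hij
        injection h4 with _ h4
        subst h2
        subst h4
        rw [(h ⟨i, hi⟩).inj w hw w' hw' e1 he1 he2 k1 hk1 hk2]
  · change ∀ p ∈ sp T (PT.app f C), ac T (PT.app f A) p ⊆ sp T (PT.app f B)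
    intro p hp q hq
    cases p with
    | nil => exact absurd hp nil_not_mem_sp
    | cons i p =>
      obtain ⟨hi, hp⟩ := mem_sp_cons.1 hp
      obtain ⟨q', hq', rfl⟩ := (mem_ac_cons hi).1 hq
      exact mem_sp_cons.2 ⟨hi, (h ⟨i, hi⟩).supC p hp hq'⟩
  · change ∀ p ∈ sp T (PT.app f D), ac T (PT.app f B) p ⊆ sp T (PT.app f A)
    intro p hp q hq
    cases p with
    | nil => exact absurd hp nil_not_mem_sp
    | cons i p =>
      obtain ⟨hi, hp⟩ := mem_sp_cons.1 hp
      obtain ⟨q', hq', rfl⟩ := (mem_ac_cons hi).1 hq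
      exact mem_sp_cons.2 ⟨hi, (h ⟨i, hi⟩).supD p hp hq'⟩

theorem split_app {f : F} {A : Fin (ar f) → PT F ar} {i : Fin (ar f)} {α A' : PT F ar}
    (h : (cal ar T).Split (A i) α A') :
    (cal ar T).Split (PT.app f A)
      (PT.app f (Function.update (fun j => PT.ofTm (A j).src) i α))
      (PT.app f (Function.update A i A')) := by
  refine ⟨?_, ?_, ?_, ?_, ?_, ?_, ?_⟩
  · change Tm.app f (fun j => (Function.update (fun j => PT.ofTm (A j).src) i α j).src) =
      Tm.app f (fun j => (A j).src)
    congr 1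
    funext j
    by_cases hj : j = i
    · subst hj
      rw [Function.update_self]
      exact h.srcα
    · rw [Function.update_of_ne hj]
      exact PT.src_ofTm _
  · change Tm.app f (fun j => (Function.update A i A' j).src) =
      Tm.app f (fun j => (Function.update (fun j => PT.ofTm (A j).src) i α j).tgt)
    congr 1
    funext j
    by_cases hj : j = i
    · subst hj
      rw [Function.update_self, Function.update_self]
      exact h.mid
    · rw [Function.update_of_ne hj, Function.update_of_ne hj]
      exact (PT.tgt_ofTm _).symm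
  · change Tm.app f (fun j => (Function.update A i A' j).tgt) = Tm.app f (fun j => (A j).tgt)
    congr 1
    funext j
    by_cases hj : j = i
    · subst hj
      rw [Function.update_self]
      exact h.tgtA'
    · rw [Function.update_of_ne hj]
  · change ∀ e ∈ tv T (Tm.app f fun j => (A j).tgt),
      ∀ m ∈ ac T (PT.app f (Function.update A i A')) e,
      ac T (PT.app f (Function.update (fun j => PT.ofTm (A j).src) i α)) m ⊆
        ac T (PT.app f A) e
    intro e he m hm x hx
    cases e with
    | nil =>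
      rw [mem_ac_nil] at hm
      subst hm
      exact mem_ac_nil.2 (mem_ac_nil.1 hx)
    | cons j e =>
      obtain ⟨hj, he⟩ := mem_tv_cons.1 he
      obtain ⟨m', hm', rfl⟩ := (mem_ac_cons hj).1 hm
      obtain ⟨x', hx', rfl⟩ := (mem_ac_cons hj).1 hx
      refine (mem_ac_cons hj).2 ⟨x', ?_, rfl⟩
      by_cases hji : (⟨j, hj⟩ : Fin (ar f)) = i
      · subst hji
        rw [Function.update_self] at hm' hx'
        exact h.sub e he m' hm' hx'
      · rw [Function.update_of_ne hji] at hm' hx'
        rw [ac_ofTm, Finset.mem_singleton] at hx'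
        rw [hx']
        exact hm'
  · change ∀ e ∈ tv T (Tm.app f fun j => (A j).tgt),
      ∀ m ∈ ac T (PT.app f (Function.update A i A')) e,
      ∀ m' ∈ ac T (PT.app f (Function.update A i A')) e,
      ∀ g ∈ ac T (PT.app f (Function.update (fun j => PT.ofTm (A j).src) i α)) m,
      g ∈ ac T (PT.app f (Function.update (fun j => PT.ofTm (A j).src) i α)) m' → m = m'
    intro e he m hm m' hm' g hg hg'
    cases e with
    | nil =>
      rw [mem_ac_nil] at hm hm'
      rw [hm, hm']
    | cons j e =>
      obtain ⟨hj, he⟩ := mem_tv_cons.1 he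
      obtain ⟨a, ha, rfl⟩ := (mem_ac_cons hj).1 hm
      obtain ⟨b, hb, rfl⟩ := (mem_ac_cons hj).1 hm'
      obtain ⟨g1, hg1, rfl⟩ := (mem_ac_cons hj).1 hg
      obtain ⟨g2, hg2, h2⟩ := (mem_ac_cons hj).1 hg'
      injection h2 with _ h2
      subst h2
      by_cases hji : (⟨j, hj⟩ : Fin (ar f)) = i
      · subst hji
        rw [Function.update_self] at ha hb hg1 hg2
        rw [h.inj e he a ha b hb g1 hg1 hg2]
      · rw [Function.update_of_ne hji, ac_ofTm, Finset.mem_singleton] at hg1 hg2
        rw [← hg1, ← hg2]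
  · change sp T (PT.app f (Function.update (fun j => PT.ofTm (A j).src) i α)) ⊆
      sp T (PT.app f A)
    intro p hp
    cases p with
    | nil => exact absurd hp nil_not_mem_sp
    | cons j p =>
      obtain ⟨hj, hp⟩ := mem_sp_cons.1 hp
      by_cases hji : (⟨j, hj⟩ : Fin (ar f)) = i
      · subst hji
        rw [Function.update_self] at hp
        exact mem_sp_cons.2 ⟨hj, h.supα hp⟩
      · rw [Function.update_of_ne hji, sp_ofTm] at hp
        simp at hp
  · change ∀ p ∈ sp T (PT.app f (Function.update A i A')),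
      ∀ g ∈ ac T (PT.app f (Function.update (fun j => PT.ofTm (A j).src) i α)) p,
      g ∈ sp T (PT.app f A) ∧
      g ∉ sp T (PT.app f (Function.update (fun j => PT.ofTm (A j).src) i α)) ∧
      ∀ p' ∈ tv T (Tm.app f (fun j => (Function.update (fun j => PT.ofTm (A j).src) i α j).tgt)),
        g ∈ ac T (PT.app f (Function.update (fun j => PT.ofTm (A j).src) i α)) p' → p' = p
    intro p hp g hg
    cases p with
    | nil => exact absurd hp nil_not_mem_sp
    | cons j p =>
      obtain ⟨hj, hp⟩ := mem_sp_cons.1 hp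
      obtain ⟨g', hg', rfl⟩ := (mem_ac_cons hj).1 hg
      by_cases hji : (⟨j, hj⟩ : Fin (ar f)) = i
      · subst hji
        rw [Function.update_self] at hp hg'
        obtain ⟨h1, h2, h3⟩ := h.supA' p hp g' hg'
        refine ⟨?_, ?_, ?_⟩
        · exact mem_sp_cons.2 ⟨hj, h1⟩
        · intro hc
          obtain ⟨_, hc⟩ := mem_sp_cons.1 hc
          rw [Function.update_self] at hc
          exact h2 hc
        · intro p' hp' he
          cases p' with
          | nil => exact absurd (mem_ac_nil.1 he) (by simp)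
          | cons k p' =>
            obtain ⟨hk, hp'⟩ := mem_tv_cons.1 hp'
            obtain ⟨g2, hg2, h4⟩ := (mem_ac_cons hk).1 he
            injection h4 with hkj h4
            subst hkj
            subst h4
            rw [Function.update_self] at hp' hg2
            rw [h3 p' hp' hg2]
      · rw [Function.update_of_ne hji] at hp
        rw [Function.update_of_ne hji, ac_ofTm, Finset.mem_singleton] at hg'
        subst hg'
        refine ⟨?_, ?_, ?_⟩
        · exact mem_sp_cons.2 ⟨hj, hp⟩
        · intro hc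
          obtain ⟨_, hc⟩ := mem_sp_cons.1 hc
          rw [Function.update_of_ne hji, sp_ofTm] at hc
          simp at hc
        · intro p' hp' he
          cases p' with
          | nil => exact absurd (mem_ac_nil.1 he) (by simp)
          | cons k p' =>
            obtain ⟨hk, hp'⟩ := mem_tv_cons.1 hp'
            obtain ⟨g2, hg2, h4⟩ := (mem_ac_cons hk).1 he
            injection h4 with hkj h4
            subst hkj
            subst h4
            rw [Function.update_of_ne hji, ac_ofTm, Finset.mem_singleton] at hg2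
            rw [hg2]

theorem tri_app {f : F} (u : Fin (ar f) → Tm F ar) {i : Fin (ar f)} {X Y Z : PT F ar}
    (h : (cal ar T).Tri X Y Z) :
    (cal ar T).Tri (PT.app f (Function.update (fun j => PT.ofTm (u j)) i X))
      (PT.app f (Function.update (fun j => PT.ofTm (u j)) i Y))
      (PT.app f (Function.update (fun j => PT.ofTm (u j)) i Z)) := by
  refine ⟨?_, ?_, ?_, ?_, ?_, ?_⟩
  · change Tm.app f (fun j => (Function.update (fun j => PT.ofTm (u j)) i X j).src) =
      Tm.app f (fun j => (Function.update (fun j => PT.ofTm (u j)) i Y j).src)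
    congr 1
    funext j
    by_cases hj : j = i
    · subst hj
      rw [Function.update_self, Function.update_self]
      exact h.src_eq
    · rw [Function.update_of_ne hj, Function.update_of_ne hj]
  · change Tm.app f (fun j => (Function.update (fun j => PT.ofTm (u j)) i Z j).src) =
      Tm.app f (fun j => (Function.update (fun j => PT.ofTm (u j)) i X j).tgt)
    congr 1
    funext j
    by_cases hj : j = i
    · subst hj
      rw [Function.update_self, Function.update_self]
      exact h.srcZ
    · rw [Function.update_of_ne hj, Function.update_of_ne hj, PT.src_ofTm, PT.tgt_ofTm]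
  · change Tm.app f (fun j => (Function.update (fun j => PT.ofTm (u j)) i Z j).tgt) =
      Tm.app f (fun j => (Function.update (fun j => PT.ofTm (u j)) i Y j).tgt)
    congr 1
    funext j
    by_cases hj : j = i
    · subst hj
      rw [Function.update_self, Function.update_self]
      exact h.tgtZ
    · rw [Function.update_of_ne hj, Function.update_of_ne hj]
  · change ∀ e ∈ tv T (Tm.app f (fun j => (Function.update (fun j => PT.ofTm (u j)) i Y j).tgt)),
      ∀ k ∈ ac T (PT.app f (Function.update (fun j => PT.ofTm (u j)) i Z)) e,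
      ∃ g ∈ ac T (PT.app f (Function.update (fun j => PT.ofTm (u j)) i X)) k,
        g ∈ ac T (PT.app f (Function.update (fun j => PT.ofTm (u j)) i Y)) e
    intro e he k hk
    cases e with
    | nil =>
      rw [mem_ac_nil] at hk
      subst hk
      exact ⟨[], mem_ac_nil.2 rfl, mem_ac_nil.2 rfl⟩
    | cons j e =>
      obtain ⟨hj, he⟩ := mem_tv_cons.1 he
      obtain ⟨k', hk', rfl⟩ := (mem_ac_cons hj).1 hk
      by_cases hji : (⟨j, hj⟩ : Fin (ar f)) = i
      · subst hji
        rw [Function.update_self] at he hk'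
        obtain ⟨g, hg1, hg2⟩ := h.comm e he k' hk'
        refine ⟨j :: g, (mem_ac_cons hj).2 ⟨g, ?_, rfl⟩, (mem_ac_cons hj).2 ⟨g, ?_, rfl⟩⟩
        · rw [Function.update_self]
          exact hg1
        · rw [Function.update_self]
          exact hg2
      · rw [Function.update_of_ne hji, ac_ofTm, Finset.mem_singleton] at hk'
        subst hk'
        refine ⟨j :: k', (mem_ac_cons hj).2 ⟨k', ?_, rfl⟩, (mem_ac_cons hj).2 ⟨k', ?_, rfl⟩⟩
        · rw [Function.update_of_ne hji, ac_ofTm, Finset.mem_singleton]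
        · rw [Function.update_of_ne hji, ac_ofTm, Finset.mem_singleton]
  · change ∀ p ∈ sp T (PT.app f (Function.update (fun j => PT.ofTm (u j)) i Z)),
      ac T (PT.app f (Function.update (fun j => PT.ofTm (u j)) i X)) p ⊆
        sp T (PT.app f (Function.update (fun j => PT.ofTm (u j)) i X)) ∪
        sp T (PT.app f (Function.update (fun j => PT.ofTm (u j)) i Y))
    intro p hp q hq
    cases p with
    | nil => exact absurd hp nil_not_mem_sp
    | cons j p =>
      obtain ⟨hj, hp⟩ := mem_sp_cons.1 hp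
      obtain ⟨q', hq', rfl⟩ := (mem_ac_cons hj).1 hq
      by_cases hji : (⟨j, hj⟩ : Fin (ar f)) = i
      · subst hji
        rw [Function.update_self] at hp hq'
        rcases Finset.mem_union.1 (h.supZ p hp hq') with h1 | h1
        · refine Finset.mem_union_left _ (mem_sp_cons.2 ⟨hj, ?_⟩)
          rw [Function.update_self]
          exact h1
        · refine Finset.mem_union_right _ (mem_sp_cons.2 ⟨hj, ?_⟩)
          rw [Function.update_self]
          exact h1
      · rw [Function.update_of_ne hji, sp_ofTm] at hp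
        simp at hp
  · obtain ⟨p, hp⟩ := h.meet
    obtain ⟨h1, h2⟩ := Finset.mem_inter.1 hp
    refine ⟨i.1 :: p, Finset.mem_inter.2 ⟨?_, ?_⟩⟩
    · refine mem_sp_cons.2 ⟨i.2, ?_⟩
      rw [Fin.eta, Function.update_self]
      exact h1
    · refine mem_sp_cons.2 ⟨i.2, ?_⟩
      rw [Fin.eta, Function.update_self]
      exact h2

theorem split_self {q : Rule F ar} {σ : ℕ → Tm F ar} :
    (cal ar T).Split (PT.rl q σ) (PT.rl q σ) (PT.ofTm (q.2.subst σ)) := by
  refine ⟨rfl, ?_, ?_, ?_, ?_, ?_, ?_⟩
  · exact PT.src_ofTm _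
  · exact PT.tgt_ofTm _
  · change ∀ e ∈ tv T (PT.rl q σ).tgt, ∀ m ∈ ac T (PT.ofTm (q.2.subst σ)) e,
      ac T (PT.rl q σ) m ⊆ ac T (PT.rl q σ) e
    intro e _ m hm
    rw [ac_ofTm, Finset.mem_singleton] at hm
    rw [hm]
  · change ∀ e ∈ tv T (PT.rl q σ).tgt, ∀ m ∈ ac T (PT.ofTm (q.2.subst σ)) e,
      ∀ m' ∈ ac T (PT.ofTm (q.2.subst σ)) e, ∀ g ∈ ac T (PT.rl q σ) m,
      g ∈ ac T (PT.rl q σ) m' → m = m'
    intro e _ m hm m' hm' _ _ _
    rw [ac_ofTm, Finset.mem_singleton] at hm hm'
    rw [hm, hm']
  · exact Finset.Subset.refl _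
  · intro p hp
    change p ∈ sp T (PT.ofTm (q.2.subst σ)) at hp
    rw [sp_ofTm] at hp
    simp at hp

end Pool.Agent.Work.MP_d87e04_lc.CG
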