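import Pool.Agent.Work.MP_d87e04_lc.CG.TNice

/-!
# Module TAtp (S-M): ancestors for a step at a position

Induction on `t` and cases on `p` (same recursion as `PT.atp`); see `CF/Atp.lean`.
-/

set_option autoImplicit false

namespace Pool.Agent.Work.MP_d87e04_lc.CG

open Pool.Agent.Work.MP_d87e04_lc.CF

universe u

variable {F : Type u} {ar : F → ℕ} {T : Set F}

private theorem subAt_nil' (t : Tm F ar) : t.subAt [] = some t := by
  cases t <;> rfl

private theorem atp_nil' (t : Tm F ar) (A : PT F ar) : PT.atp t [] A = A := by
  cases t <;> rfl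

private theorem subAt_cons' {f : F} {a : Fin (ar f) → Tm F ar} {i : ℕ} (h : i < ar f)
    (p : List ℕ) : (Tm.app f a).subAt (i :: p) = (a ⟨i, h⟩).subAt p := by
  rw [Tm.subAt, dif_pos h]

private theorem subAt_lt' {f : F} {a : Fin (ar f) → Tm F ar} {i : ℕ} {p : List ℕ}
    {u : Tm F ar} (h : (Tm.app f a).subAt (i :: p) = some u) : i < ar f := by
  by_contra hc
  rw [Tm.subAt, dif_neg hc] at h
  cases h

private theorem atp_cons' {f : F} {a : Fin (ar f) → Tm F ar} {i : ℕ} (h : i < ar f)
    (p : List ℕ) (A : PT F ar) : PT.atp (Tm.app f a) (i :: p) A =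
      PT.app f (Function.update (fun j => PT.ofTm (a j)) ⟨i, h⟩ (PT.atp (a ⟨i, h⟩) p A)) := by
  rw [PT.atp, dif_pos h]

theorem ac_atp_below {t : Tm F ar} {p : List ℕ} {A : PT F ar} (h : t.subAt p = some A.src)
    (e : List ℕ) : ac T (PT.atp t p A) (p ++ e) = (ac T A e).image (p ++ ·) := by
  induction p generalizing t with
  | nil =>
    rw [atp_nil']
    simp
  | cons i p ih =>
    cases t with
    | var x => cases h
    | app f a =>
      have hi := subAt_lt' h
      rw [subAt_cons' hi] at h
      rw [atp_cons' hi, List.cons_append, ac, dif_pos hi, Function.update_self, ih h,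
        Finset.image_image]
      rfl

theorem ac_atp_else {t : Tm F ar} {p : List ℕ} {A : PT F ar} (h : t.subAt p = some A.src)
    {e : List ℕ} (he : ¬ p <+: e) : ac T (PT.atp t p A) e = {e} := by
  induction p generalizing t e with
  | nil => exact absurd List.nil_prefix he
  | cons i p ih =>
    cases t with
    | var x => cases h
    | app f a =>
      have hi := subAt_lt' h
      rw [subAt_cons' hi] at h
      rw [atp_cons' hi]
      cases e with
      | nil => rw [ac]
      | cons k e =>
        rw [ac]
        by_cases hk : k < ar f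
        · rw [dif_pos hk]
          by_cases hj : (⟨k, hk⟩ : Fin (ar f)) = ⟨i, hi⟩
          · rw [hj, Function.update_self]
            have hki : k = i := congrArg Fin.val hj
            subst hki
            rw [ih h fun hp => he (List.cons_prefix_cons.2 ⟨rfl, hp⟩),
              Finset.image_singleton]
          · rw [Function.update_of_ne hj, ac_ofTm, Finset.image_singleton]
        · rw [dif_neg hk]

theorem ac_atp_congr {t : Tm F ar} {p : List ℕ} {A B : PT F ar} (hAB : ac T A = ac T B) :
    ac T (PT.atp t p A) = ac T (PT.atp t p B) := by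
  funext e
  induction p generalizing t e with
  | nil => rw [atp_nil', atp_nil', hAB]
  | cons i p ih =>
    cases t with
    | var x => rfl
    | app f a =>
      by_cases hi : i < ar f
      · rw [atp_cons' hi, atp_cons' hi]
        cases e with
        | nil => rw [ac, ac]
        | cons k e =>
          rw [ac, ac]
          by_cases hk : k < ar f
          · rw [dif_pos hk, dif_pos hk]
            by_cases hj : (⟨k, hk⟩ : Fin (ar f)) = ⟨i, hi⟩
            · rw [hj, Function.update_self, Function.update_self, ih]
            · rw [Function.update_of_ne hj, Function.update_of_ne hj]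
          · rw [dif_neg hk, dif_neg hk]
      · rw [PT.atp, dif_neg hi, PT.atp, dif_neg hi]

theorem mem_sp_atp {t : Tm F ar} {p : List ℕ} {A : PT F ar} (h : t.subAt p = some A.src)
    (e : List ℕ) : e ∈ sp T (PT.atp t p A) ↔ ∃ e' ∈ sp T A, e = p ++ e' := by
  induction p generalizing t e with
  | nil =>
    rw [atp_nil']
    simp
  | cons i p ih =>
    cases t with
    | var x => cases h
    | app f a =>
      have hi := subAt_lt' h
      rw [subAt_cons' hi] at h
      rw [atp_cons' hi]
      constructor
      · intro he
        cases e with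
        | nil => exact absurd he nil_not_mem_sp
        | cons j e1 =>
          obtain ⟨hj', he1⟩ := mem_sp_cons.1 he
          by_cases hj : (⟨j, hj'⟩ : Fin (ar f)) = ⟨i, hi⟩
          · rw [hj, Function.update_self] at he1
            have hki : j = i := congrArg Fin.val hj
            subst hki
            obtain ⟨e', he', rfl⟩ := (ih h e1).1 he1
            exact ⟨e', he', rfl⟩
          · rw [Function.update_of_ne hj, sp_ofTm] at he1
            exact absurd he1 (Finset.notMem_empty _)
      · rintro ⟨e', he', rfl⟩
        rw [List.cons_append]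
        refine mem_sp_cons.2 ⟨hi, ?_⟩
        rw [Function.update_self]
        exact (ih h _).2 ⟨e', he', rfl⟩

/-- A `T`-symbol of the result of a step at `p` is below `p`, or it is a `T`-symbol of `t`. -/
theorem tn_tgt_atp {t : Tm F ar} {p : List ℕ} {A : PT F ar} (h : t.subAt p = some A.src)
    {e : List ℕ} (he : e ∈ tn T (PT.atp t p A).tgt) :
    (∃ e', e = p ++ e' ∧ e' ∈ tn T A.tgt) ∨ (¬ p <+: e ∧ e ∈ tn T t) := by
  induction p generalizing t e with
  | nil =>
    rw [atp_nil'] at he
    exact Or.inl ⟨e, rfl, he⟩
  | cons i p ih =>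
    cases t with
    | var x => cases h
    | app f a =>
      have hi := subAt_lt' h
      rw [subAt_cons' hi] at h
      rw [atp_cons' hi, PT.tgt] at he
      cases e with
      | nil =>
        refine Or.inr ⟨fun hp => ?_, nil_mem_tn.2 (nil_mem_tn.1 he)⟩
        exact absurd (List.prefix_nil.1 hp) (List.cons_ne_nil _ _)
      | cons k e =>
        obtain ⟨hk, he⟩ := mem_tn_cons.1 he
        by_cases hj : (⟨k, hk⟩ : Fin (ar f)) = ⟨i, hi⟩
        · simp only [hj, Function.update_self] at he
          have hki : k = i := congrArg Fin.val hj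
          subst hki
          rcases ih h he with ⟨e', rfl, h2⟩ | ⟨h1, h2⟩
          · exact Or.inl ⟨e', rfl, h2⟩
          · exact Or.inr ⟨fun hp => h1 (List.cons_prefix_cons.1 hp).2, mem_tn_cons.2 ⟨hk, h2⟩⟩
        · simp only [Function.update_of_ne hj, PT.tgt_ofTm] at he
          refine Or.inr ⟨fun hp => hj ?_, mem_tn_cons.2 ⟨hk, he⟩⟩
          exact Fin.ext (List.cons_prefix_cons.1 hp).1.symm

end Pool.Agent.Work.MP_d87e04_lc.CG
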