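import Pool.Agent.Work.MP_d87e04_lc.CG.TMain

/-!
# Two special cases
-/

set_option autoImplicit false

namespace Pool.Agent.Work.MP_d87e04_lc.CG

open Pool.Agent.Work.MP_d87e04_lc.CF Relation

universe u

variable {F : Type u} {ar : F → ℕ}

theorem subAt_nil_cg (t : Tm F ar) : t.subAt [] = some t := by
  cases t <;> rfl

theorem subAt_ren {g : Tm F ar} {ρ : ℕ → ℕ} : ∀ {p : List ℕ} {u : Tm F ar},
    (g.ren ρ).subAt p = some u → ∃ u₀, g.subAt p = some u₀ ∧ u = u₀.ren ρ := by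
  induction g with
  | var x =>
    intro p u h
    cases p with
    | nil =>
      rw [subAt_nil_cg] at h
      exact ⟨Tm.var x, subAt_nil_cg _, (Option.some.inj h).symm⟩
    | cons i p => simp [Tm.ren, Tm.subAt] at h
  | app f a ih =>
    intro p u h
    cases p with
    | nil =>
      rw [subAt_nil_cg] at h
      exact ⟨Tm.app f a, subAt_nil_cg _, (Option.some.inj h).symm⟩
    | cons i p =>
      simp only [Tm.ren, Tm.subst_app, Tm.subAt] at h
      split at h
      · rename_i hi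
        obtain ⟨u₀, h1, h2⟩ := ih ⟨i, hi⟩ h
        exact ⟨u₀, by simp only [Tm.subAt, hi, dif_pos]; exact h1, h2⟩
      · exact absurd h (by simp)

/-- Systems in which the rules containing constants do not overlap each other. -/
theorem confluent_consts {R : Set (Rule F ar)} (hR : IsTRS R) (hL : LeftLinear R)
    (hC : ∀ t s, CriticalPair R t s → Par R s t ∨ Par R t s)
    (h1 : ∀ q ∈ R, Occurs (Consts ar) q.2 → Occurs (Consts ar) q.1)
    (h2 : ∀ l r g d ρ₁ ρ₂ p θ, Overlap R l r g d ρ₁ ρ₂ p θ →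
      ¬ (Occurs (Consts ar) l ∧ Occurs (Consts ar) g)) : Confluent R := by
  refine confluent_cg (T := Consts ar) ⟨hR, hL, fun q hq => ?_, Or.inr fun f hf => hf⟩ hC
    fun q hq q' hq' p u σ ψ h3 h4 h5 hv => ?_
  · rw [tn_nonempty_iff, tn_nonempty_iff]
    exact h1 q hq
  · obtain ⟨ρ₁, ρ₂, θ, hov, -⟩ := exists_overlap hL hq hq' h3 h4 h5 hv
    by_cases h6 : Occurs (Consts ar) q'.1
    · have h7 : ¬ Occurs (Consts ar) q.1 := fun h => h2 _ _ _ _ _ _ _ _ hov ⟨h6, h⟩
      have h8 : tn (Consts ar) q.1 = ∅ := tn_empty_iff.2 h7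
      have h9 : tn (Consts ar) q.2 = ∅ := tn_empty_iff.2 fun h => h7 (h1 q hq h)
      refine ⟨Or.inr (Or.inr h9), Or.inr ?_⟩
      rintro (⟨n, hn, -⟩ | ⟨m₁, m₂, x, hm, -⟩)
      · rw [h8] at hn
        exact absurd hn (Finset.notMem_empty _)
      · rw [h8] at hm
        exact absurd hm (Finset.notMem_empty _)
    · have h8 : tn (Consts ar) q'.1 = ∅ := tn_empty_iff.2 h6
      have h9 : tn (Consts ar) q'.2 = ∅ := tn_empty_iff.2 fun h => h6 (h1 q' hq' h)
      refine ⟨Or.inr (Or.inl h9), Or.inl ?_⟩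
      rintro ⟨m₁, m₂, x, hm, -⟩
      rw [h8] at hm
      exact absurd hm (Finset.notMem_empty _)

/-- Systems whose critical pairs have no defined symbol below the variables of `d`. -/
theorem confluent_defined {R : Set (Rule F ar)} (hR : IsTRS R) (hL : LeftLinear R)
    (hC : ∀ t s, CriticalPair R t s → Par R s t ∨ Par R t s)
    (h : ∀ l r g d ρ₁ ρ₂ p θ, Overlap R l r g d ρ₁ ρ₂ p θ →
      ∀ y, 0 < d.occ y → ¬ Occurs (Defined R) (θ (ρ₂ y))) : Confluent R := by
  have hroot : ∀ q ∈ R, OccAt (Defined R) q.1 [] := by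
    intro q hq
    cases hq1 : q.1 with
    | var x => exact absurd hq1 ((hR q hq).1 x)
    | app f a => exact ⟨f, a, subAt_nil_cg _, q, hq, a, hq1⟩
  refine confluent_tracks hR hL (T := Defined R) ⟨fun q hq _ => ⟨[], hroot q hq⟩,
    Or.inl fun q hq => ⟨[], hroot q hq⟩, ?_, fun l r g d ρ₁ ρ₂ p θ hov =>
      Or.inl (h l r g d ρ₁ ρ₂ p θ hov)⟩ hC
  intro l r g d ρ₁ ρ₂ p θ hov
  obtain ⟨hl, hg, -, -, -, ⟨u, hu, hnv, hθ, -⟩, -⟩ := hov
  refine Or.inl ⟨[], hroot (l, r) hl, ?_⟩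
  obtain ⟨f, a, hf, hfT⟩ := hroot (l, r) hl
  rw [subAt_nil_cg] at hf
  have hf' : l = Tm.app f a := Option.some.inj hf
  obtain ⟨u₀, h1, rfl⟩ := subAt_ren hu
  cases u₀ with
  | var x => exact absurd rfl (hnv (ρ₂ x))
  | app f' a' =>
    rw [hf'] at hθ
    simp only [Tm.ren, Tm.subst_app, Tm.app.injEq] at hθ
    obtain ⟨rfl, -⟩ := hθ
    exact ⟨f', a', by rw [List.append_nil]; exact h1, hfT⟩

end Pool.Agent.Work.MP_d87e04_lc.CG
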