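import Pool.Agent.Work.MP_d87e04_lc.CG.TLv

/-!
# Module TCut (M): truncated terms

`cut N m t` keeps the symbols of `t` at the positions `p` with `m ++ p ∈ N` (as long as all
positions above are kept) and replaces the rest by variables which encode positions. Compare
`CF/Lin.lean` (`lin_subst_pat`, `lin_at`, `unlin`), the proofs are the same.
-/

set_option autoImplicit false

namespace Pool.Agent.Work.MP_d87e04_lc.CG

open Pool.Agent.Work.MP_d87e04_lc.CF

universe u

variable {F : Type u} {ar : F → ℕ} {T : Set F}

private theorem subAt_nilC (t : Tm F ar) : t.subAt [] = some t := by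
  cases t <;> rfl

private theorem subAt_consC {f : F} {a : Fin (ar f) → Tm F ar} {i : ℕ} {p : List ℕ}
    {s : Tm F ar} : (Tm.app f a).subAt (i :: p) = some s ↔
      ∃ h : i < ar f, (a ⟨i, h⟩).subAt p = some s := by
  simp only [Tm.subAt]
  constructor
  · intro h
    split at h
    · rename_i hi
      exact ⟨hi, h⟩
    · exact absurd h (by simp)
  · rintro ⟨h, hs⟩
    rw [dif_pos h]
    exact hs

private theorem cut_pos {N : Set (List ℕ)} {m : List ℕ} (h : m ∈ N) (f : F)
    (a : Fin (ar f) → Tm F ar) :
    cut N m (Tm.app f a) = Tm.app f fun i => cut N (m ++ [i.1]) (a i) := by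
  rw [cut, if_pos h]

private theorem cut_neg {N : Set (List ℕ)} {m : List ℕ} (h : m ∉ N) (f : F)
    (a : Fin (ar f) → Tm F ar) : cut N m (Tm.app f a) = Tm.var (enc m) := by
  rw [cut, if_neg h]

theorem cut_subst_pat {N : Set (List ℕ)} {P : Tm F ar} {m : List ℕ} {σ σ' : ℕ → Tm F ar}
    (hN : ∀ k f a, P.subAt k = some (Tm.app f a) → m ++ k ∈ N)
    (h : ∀ k x, P.subAt k = some (Tm.var x) → σ' x = cut N (m ++ k) (σ x)) :
    cut N m (P.subst σ) = P.subst σ' := by
  induction P generalizing m with
  | var x =>
    have h1 := h [] x rfl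
    rw [List.append_nil] at h1
    exact h1.symm
  | app f a ih =>
    have hm : m ∈ N := by
      have h1 := hN [] f a rfl
      rw [List.append_nil] at h1
      exact h1
    rw [Tm.subst_app, Tm.subst_app, cut_pos hm]
    congr 1
    funext i
    refine ih i ?_ ?_
    · intro k g b hk
      have h1 := hN (i.1 :: k) g b (subAt_consC.2 ⟨i.2, hk⟩)
      rw [List.append_assoc]
      exact h1
    · intro k x hk
      have h1 := h (i.1 :: k) x (subAt_consC.2 ⟨i.2, hk⟩)
      rw [h1, List.append_assoc]
      rfl

theorem cut_at {N : Set (List ℕ)} {m : List ℕ} {t s : Tm F ar} {p : List ℕ}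
    (h : t.subAt p = some s) (hN : ∀ a i b, p = a ++ i :: b → m ++ a ∈ N) :
    (cut N m t).subAt p = some (cut N (m ++ p) s) := by
  induction p generalizing m t with
  | nil =>
    rw [subAt_nilC] at h
    cases h
    rw [List.append_nil, subAt_nilC]
  | cons i p ih =>
    cases t with
    | var x => exact absurd h (by simp [Tm.subAt])
    | app f a =>
      obtain ⟨hi, h⟩ := subAt_consC.1 h
      have hm : m ∈ N := by
        have h1 := hN [] i p rfl
        rw [List.append_nil] at h1
        exact h1
      rw [cut_pos hm]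
      refine subAt_consC.2 ⟨hi, ?_⟩
      have h2 := ih (m := m ++ [i]) h (fun b j c hb => by
        have h3 := hN (i :: b) j c (by rw [hb]; rfl)
        rw [List.append_assoc]
        exact h3)
      rw [List.append_assoc] at h2
      exact h2

theorem tn_cut {N : Set (List ℕ)} {m : List ℕ} {t : Tm F ar} {e : List ℕ}
    (h : e ∈ tn T (cut N m t)) : e ∈ tn T t ∧ m ++ e ∈ N := by
  induction t generalizing m e with
  | var x =>
    rw [cut] at h
    exact absurd h not_mem_tn_var
  | app f a ih =>
    by_cases hm : m ∈ N
    · rw [cut_pos hm] at h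
      cases e with
      | nil =>
        rw [List.append_nil]
        exact ⟨nil_mem_tn.2 (nil_mem_tn.1 h), hm⟩
      | cons i e =>
        obtain ⟨hi, h⟩ := mem_tn_cons.1 h
        obtain ⟨h1, h2⟩ := ih ⟨i, hi⟩ h
        refine ⟨mem_tn_cons.2 ⟨hi, h1⟩, ?_⟩
        rw [List.append_assoc] at h2
        exact h2
    · rw [cut_neg hm] at h
      exact absurd h not_mem_tn_var

theorem cut_var {N : Set (List ℕ)} {m : List ℕ} {t : Tm F ar} {k : List ℕ} {v : ℕ}
    (h : (cut N m t).subAt k = some (Tm.var v)) : v = enc (m ++ k) := by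
  induction t generalizing m k with
  | var x =>
    rw [cut] at h
    cases k with
    | nil =>
      rw [subAt_nilC] at h
      cases h
      rw [List.append_nil]
    | cons i k => exact absurd h (by simp [Tm.subAt])
  | app f a ih =>
    by_cases hm : m ∈ N
    · rw [cut_pos hm] at h
      cases k with
      | nil =>
        rw [subAt_nilC] at h
        exact absurd h (by simp)
      | cons i k =>
        obtain ⟨hi, h⟩ := subAt_consC.1 h
        have h1 := ih ⟨i, hi⟩ h
        rw [List.append_assoc] at h1
        exact h1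
    · rw [cut_neg hm] at h
      cases k with
      | nil =>
        rw [subAt_nilC] at h
        cases h
        rw [List.append_nil]
      | cons i k => exact absurd h (by simp [Tm.subAt])

theorem uncut (N : Set (List ℕ)) (t : Tm F ar) :
    ∃ δ : ℕ → Tm F ar, (cut N [] t).subst δ = t := by
  classical
  have hex : ∀ n : ℕ, ∃ d : Tm F ar, ∀ p s, n = enc p → t.subAt p = some s → d = s := by
    intro n
    by_cases h : ∃ p s, n = enc p ∧ t.subAt p = some s
    · obtain ⟨p, s, h1, h2⟩ := h
      refine ⟨s, fun p' s' h1' h2' => ?_⟩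
      have hp : p = p' := enc_inj (h1.symm.trans h1')
      subst hp
      rw [h2] at h2'
      exact Option.some.inj h2'
    · exact ⟨Tm.var n, fun p s h1 h2 => absurd ⟨p, s, h1, h2⟩ h⟩
  choose δ hδ using hex
  refine ⟨δ, ?_⟩
  have key : ∀ (s : Tm F ar) (m : List ℕ), t.subAt m = some s → (cut N m s).subst δ = s := by
    intro s
    induction s with
    | var x =>
      intro m hm
      rw [cut]
      exact hδ (enc m) m _ rfl hm
    | app f a ih =>
      intro m hm
      by_cases h0 : m ∈ N
      · rw [cut_pos h0, Tm.subst_app]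
        congr 1
        funext i
        refine ih i (m ++ [i.1]) ?_
        rw [subAt_append hm]
        exact subAt_consC.2 ⟨i.2, subAt_nilC _⟩
      · rw [cut_neg h0]
        exact hδ (enc m) m _ rfl hm
  exact key t [] (subAt_nilC t)

end Pool.Agent.Work.MP_d87e04_lc.CG
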