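import Pool.Agent.Work.MP_d87e04_lc.PDefs

/-!
# Definitions for the statement of `MP_d87e04_lc.TrackedSymbols`
-/

set_option autoImplicit false

namespace Pool.Agent.Work.MP_d87e04_lc

universe u

variable {F : Type u} {ar : F → ℕ}

/-- A symbol of `T` stands at position `p` of `t`. -/
def OccAt (T : Set F) (t : Tm F ar) (p : List ℕ) : Prop :=
  ∃ f a, t.subAt p = some (Tm.app f a) ∧ f ∈ T

/-- A symbol of `T` occurs in `t`. -/
def Occurs (T : Set F) (t : Tm F ar) : Prop := ∃ p, OccAt T t p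

/-- The constants (symbols without arguments). -/
def Consts (ar : F → ℕ) : Set F := {f | ar f = 0}

/-- The defined symbols of `R`: the root symbols of the left-hand sides. -/
def Defined (R : Set (Rule F ar)) : Set F := {f | ∃ q ∈ R, ∃ a, q.1 = Tm.app f a}

/-- `l → r` (inner rule, renamed by `ρ₁`) overlaps `g → d` (outer rule, renamed by `ρ₂`) at the
non-variable position `p` of `g` with the mgu `θ`; this is the data of a critical pair
`gθ[rθ]_p ≈ dθ`, see `CriticalPair`. -/
def Overlap (R : Set (Rule F ar)) (l r g d : Tm F ar) (ρ₁ ρ₂ : ℕ → ℕ) (p : List ℕ)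
    (θ : ℕ → Tm F ar) : Prop :=
  (l, r) ∈ R ∧ (g, d) ∈ R ∧ Function.Injective ρ₁ ∧ Function.Injective ρ₂ ∧
    (∀ x y, ρ₁ x ≠ ρ₂ y) ∧ (∃ u, (g.ren ρ₂).subAt p = some u ∧ (∀ x, u ≠ Tm.var x) ∧
      IsMGU θ u (l.ren ρ₁)) ∧ (p = [] → ¬ Variant (l, r) (g, d))

/-- The conditions on the set `T` of symbols:
(i) if the right side of a rule contains a symbol of `T`, so does its left side;
(ii) every left side contains a symbol of `T`, or `T` contains all constants of the rules;
(iii) for every critical overlap, a symbol of `T` stands in the common part of `l` and `g` at `p`,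
unless `r` or `d` contains no symbol of `T`;
(iv) for every critical overlap, `θ y` contains no symbol of `T` for the variables `y` of `d`
(so all symbols of `T` in `s = dθ` stem from `d`), or no symbol of `T` stands in `g` outside of the
position `p` and `θ x` contains no symbol of `T` for the variables `x` of `r` (so all symbols of
`T` in `t = gθ[rθ]_p` stem from `r`). -/
structure Tracks (R : Set (Rule F ar)) (T : Set F) : Prop where
  i : ∀ q ∈ R, Occurs T q.2 → Occurs T q.1
  ii : (∀ q ∈ R, Occurs T q.1) ∨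
    ∀ q ∈ R, ∀ p, (OccAt (Consts ar) q.1 p → OccAt T q.1 p) ∧
      (OccAt (Consts ar) q.2 p → OccAt T q.2 p)
  iii : ∀ l r g d ρ₁ ρ₂ p θ, Overlap R l r g d ρ₁ ρ₂ p θ →
    (∃ m, OccAt T l m ∧ OccAt T g (p ++ m)) ∨ ¬ Occurs T r ∨ ¬ Occurs T d
  iv : ∀ l r g d ρ₁ ρ₂ p θ, Overlap R l r g d ρ₁ ρ₂ p θ →
    (∀ y, 0 < d.occ y → ¬ Occurs T (θ (ρ₂ y))) ∨
    ((∀ n, OccAt T g n → p <+: n) ∧ ∀ x, 0 < r.occ x → ¬ Occurs T (θ (ρ₁ x)))

end Pool.Agent.Work.MP_d87e04_lc
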