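import Pool.Agent.Work.MP_d87e04_lc.CG.TApp

/-!
# Module TDich (S-M): a step from `P σ` is inside the substitution or has a redex at a
non-variable position of `P`

Exactly the statement and the proof of `CF/Dich.lean` (copy it; private lemmas included), with
`(cal ar T).Split`, `split_app`, `split_self` of this folder.
-/

set_option autoImplicit false

namespace Pool.Agent.Work.MP_d87e04_lc.CG

open Pool.Agent.Work.MP_d87e04_lc.CF

universe u

variable {F : Type u} {ar : F → ℕ} {T : Set F}

private theorem lsub_congr {τ τ' : ℕ → PT F ar} (t : Tm F ar)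
    (h : ∀ x, 0 < t.occ x → τ x = τ' x) : PT.lsub τ t = PT.lsub τ' t := by
  induction t with
  | var x => exact h x (by simp [Tm.occ])
  | app f a ih =>
    simp only [PT.lsub]
    congr 1
    funext i
    exact ih i fun x hx => h x (Tm.occ_arg hx)

theorem dich {R : Set (Rule F ar)} {P : Tm F ar} (hP : P.Linear) {σ : ℕ → Tm F ar}
    {B : PT F ar} (hB : B.OK R) (hs : B.src = P.subst σ) :
    (∃ τ : ℕ → PT F ar, (∀ x, (τ x).OK R) ∧ (∀ x, (τ x).src = σ x) ∧ B = PT.lsub τ P) ∨
    ∃ (p : List ℕ) (u : Tm F ar) (q' : Rule F ar) (ψ : ℕ → Tm F ar) (B' : PT F ar),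
      P.subAt p = some u ∧ (∀ x, u ≠ Tm.var x) ∧ q' ∈ R ∧ u.subst σ = q'.1.subst ψ ∧ B'.OK R ∧
      (cal ar T).Split B (PT.atp (P.subst σ) p (PT.rl q' ψ)) B' := by
  induction P generalizing B with
  | var x =>
    left
    refine ⟨fun y => if y = x then B else PT.ofTm (σ y), fun y => ?_, fun y => ?_, ?_⟩
    · by_cases h : y = x
      · simpa only [if_pos h] using hB
      · simpa only [if_neg h] using PT.ok_ofTm R _
    · by_cases h : y = x
      · simp only [if_pos h]
        rw [hs, h]
        rfl
      · simp only [if_neg h]
        exact PT.src_ofTm _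
    · simp only [PT.lsub, if_true]
  | app f a ih =>
    cases B with
    | var x =>
      exfalso
      simp only [PT.src, Tm.subst_app] at hs
      cases hs
    | rl q' ψ =>
      right
      refine ⟨[], Tm.app f a, q', ψ, PT.ofTm (q'.2.subst ψ), rfl, ?_, hB, hs.symm,
        PT.ok_ofTm R _, ?_⟩
      · intro x h
        cases h
      · have e : PT.atp ((Tm.app f a).subst σ) [] (PT.rl q' ψ) = PT.rl q' ψ := by
          rw [Tm.subst_app, PT.atp]
        rw [e]
        exact split_self
    | app g b =>
      have hs' : (Tm.app g fun i => (b i).src) = Tm.app f fun i => (a i).subst σ := hs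
      obtain ⟨rfl, h2⟩ := Tm.app.inj hs'
      have hbs : ∀ i, (b i).src = (a i).subst σ := fun i => congrFun (eq_of_heq h2) i
      have hBo : ∀ i, (b i).OK R := hB
      by_cases hex : ∀ i, ∃ τ : ℕ → PT F ar, (∀ x, (τ x).OK R) ∧ (∀ x, (τ x).src = σ x) ∧
          b i = PT.lsub τ (a i)
      · left
        choose τ h3 h4 h5 using hex
        classical
        let T0 : ℕ → PT F ar := fun y => if h : ∃ i, 0 < (a i).occ y then τ h.choose y
          else PT.ofTm (σ y)
        have hT : ∀ i y, 0 < (a i).occ y → T0 y = τ i y := by
          intro i y h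
          have hx : ∃ i, 0 < (a i).occ y := ⟨i, h⟩
          simp only [T0, dif_pos hx]
          rw [hP.disj hx.choose_spec h]
        refine ⟨T0, fun y => ?_, fun y => ?_, ?_⟩
        · by_cases h : ∃ i, 0 < (a i).occ y
          · simp only [T0, dif_pos h]
            exact h3 _ _
          · simp only [T0, dif_neg h]
            exact PT.ok_ofTm R _
        · by_cases h : ∃ i, 0 < (a i).occ y
          · simp only [T0, dif_pos h]
            exact h4 _ _
          · simp only [T0, dif_neg h]
            exact PT.src_ofTm _
        · simp only [PT.lsub]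
          congr 1
          funext i
          rw [h5 i]
          exact lsub_congr _ fun y hy => (hT i y hy).symm
      · right
        rw [not_forall] at hex
        obtain ⟨i, hi⟩ := hex
        obtain ⟨p, u, q', ψ, B', k1, k2, k3, k4, k5, k6⟩ :=
          (ih i (hP.arg i) (hBo i) (hbs i)).resolve_left hi
        refine ⟨i.1 :: p, u, q', ψ, PT.app g (Function.update b i B'), ?_, k2, k3, k4, ?_, ?_⟩
        · simp only [Tm.subAt, i.2, dif_pos, Fin.eta]
          exact k1
        · intro j
          by_cases h : j = i
          · subst h
            rw [Function.update_self]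
            exact k5
          · rw [Function.update_of_ne h]
            exact hBo j
        · have h6 := split_app (f := g) (A := b) (i := i) k6
          have e : PT.atp ((Tm.app g a).subst σ) (i.1 :: p) (PT.rl q' ψ) =
              PT.app g (Function.update (fun j => PT.ofTm (b j).src) i
                (PT.atp ((a i).subst σ) p (PT.rl q' ψ))) := by
            rw [Tm.subst_app]
            simp only [PT.atp, i.2, dif_pos, Fin.eta]
            congr 2
            funext j
            rw [hbs]
          rw [e]
          exact h6

end Pool.Agent.Work.MP_d87e04_lc.CG
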