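import Pool.Agent.Work.MP_d87e04_lc.CG.Defs

/-!
# Module TLv (M): tracked positions

Basic facts on `tn`, `tv`, `sp`. Structural inductions as in `CF/Lv.lean` (which may be cited:
`subAt_append`, `along_append`, `vpos_eq`, `vpos_spec`, `occ_of_subAt`).
-/

set_option autoImplicit false

namespace Pool.Agent.Work.MP_d87e04_lc.CG

open Pool.Agent.Work.MP_d87e04_lc.CF

universe u

variable {F : Type u} {ar : F → ℕ} {T : Set F}

private theorem subAt_nilT (t : Tm F ar) : t.subAt [] = some t := by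
  cases t <;> rfl

private theorem subAt_consT {f : F} {a : Fin (ar f) → Tm F ar} {i : ℕ} {p : List ℕ}
    {s : Tm F ar} : (Tm.app f a).subAt (i :: p) = some s ↔
      ∃ h : i < ar f, (a ⟨i, h⟩).subAt p = some s := by
  simp only [Tm.subAt]
  constructor
  · intro h
    split at h
    · rename_i hi
      exact ⟨hi, h⟩
    · exact absurd h (by simp)
  · rintro ⟨h, hs⟩
    rw [dif_pos h]
    exact hs

private theorem cons_mem_aux {f : F} {c : Prop} [Decidable c]
    {G : Fin (ar f) → Finset (List ℕ)} {i : ℕ} {p : List ℕ} :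
    (i :: p) ∈ ((if c then {[]} else ∅) ∪
      Finset.univ.biUnion fun j : Fin (ar f) => (G j).image (List.cons j.1) : Finset (List ℕ)) ↔
      ∃ h : i < ar f, p ∈ G ⟨i, h⟩ := by
  rw [Finset.mem_union]
  constructor
  · rintro (h | h)
    · split at h <;> simp at h
    · simp only [Finset.mem_biUnion, Finset.mem_univ, true_and, Finset.mem_image,
        List.cons.injEq] at h
      obtain ⟨j, q, hq, rfl, rfl⟩ := h
      exact ⟨j.2, hq⟩
  · rintro ⟨h, hp⟩
    refine Or.inr ?_
    simp only [Finset.mem_biUnion, Finset.mem_univ, true_and, Finset.mem_image, List.cons.injEq]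
    exact ⟨⟨i, h⟩, p, hp, rfl, rfl⟩

private theorem nil_mem_aux {f : F} {c : Prop} [Decidable c]
    {G : Fin (ar f) → Finset (List ℕ)} :
    ([] : List ℕ) ∈ ((if c then {[]} else ∅) ∪
      Finset.univ.biUnion fun j : Fin (ar f) => (G j).image (List.cons j.1) : Finset (List ℕ)) ↔
      c := by
  rw [Finset.mem_union]
  constructor
  · rintro (h | h)
    · by_contra hc
      rw [if_neg hc] at h
      simp at h
    · simp at h
  · intro h
    left
    rw [if_pos h]
    simp

theorem mem_tn_cons {f : F} {a : Fin (ar f) → Tm F ar} {i : ℕ} {p : List ℕ} :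
    (i :: p) ∈ tn T (Tm.app f a) ↔ ∃ h : i < ar f, p ∈ tn T (a ⟨i, h⟩) := by
  classical
  rw [tn]
  exact cons_mem_aux

theorem nil_mem_tn {f : F} {a : Fin (ar f) → Tm F ar} : [] ∈ tn T (Tm.app f a) ↔ f ∈ T := by
  classical
  rw [tn]
  exact nil_mem_aux

theorem not_mem_tn_var {x : ℕ} {p : List ℕ} : p ∉ tn T (Tm.var x : Tm F ar) := by
  simp [tn]

theorem mem_tn_iff {t : Tm F ar} {p : List ℕ} :
    p ∈ tn T t ↔ ∃ f a, t.subAt p = some (Tm.app f a) ∧ f ∈ T := by
  induction t generalizing p with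
  | var x =>
    constructor
    · intro h
      exact absurd h not_mem_tn_var
    · rintro ⟨f, a, h, _⟩
      cases p with
      | nil =>
        rw [subAt_nilT] at h
        exact absurd h (by simp)
      | cons i p => exact absurd h (by simp [Tm.subAt])
  | app g b ih =>
    cases p with
    | nil =>
      rw [nil_mem_tn, subAt_nilT]
      constructor
      · intro h
        exact ⟨g, b, rfl, h⟩
      · rintro ⟨f, a, h, hf⟩
        cases h
        exact hf
    | cons i p =>
      rw [mem_tn_cons]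
      constructor
      · rintro ⟨h, hp⟩
        obtain ⟨f, a, h1, h2⟩ := (ih ⟨i, h⟩).1 hp
        exact ⟨f, a, subAt_consT.2 ⟨h, h1⟩, h2⟩
      · rintro ⟨f, a, h1, h2⟩
        obtain ⟨h, h1⟩ := subAt_consT.1 h1
        exact ⟨h, (ih ⟨i, h⟩).2 ⟨f, a, h1, h2⟩⟩

theorem mem_tv_cons {f : F} {a : Fin (ar f) → Tm F ar} {i : ℕ} {p : List ℕ} :
    (i :: p) ∈ tv T (Tm.app f a) ↔ ∃ h : i < ar f, p ∈ tv T (a ⟨i, h⟩) := by
  classical
  rw [tv]
  exact cons_mem_aux

theorem nil_mem_tv {f : F} {a : Fin (ar f) → Tm F ar} : [] ∈ tv T (Tm.app f a) ↔ f ∈ T := by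
  classical
  rw [tv]
  exact nil_mem_aux

theorem mem_tv_var {x : ℕ} {p : List ℕ} : p ∈ tv T (Tm.var x : Tm F ar) ↔ p = [] := by
  simp [tv]

theorem mem_tv_iff {t : Tm F ar} {p : List ℕ} :
    p ∈ tv T t ↔ p ∈ tn T t ∨ ∃ x, t.subAt p = some (Tm.var x) := by
  induction t generalizing p with
  | var x =>
    rw [mem_tv_var]
    constructor
    · rintro rfl
      exact Or.inr ⟨x, subAt_nilT _⟩
    · rintro (h | ⟨y, h⟩)
      · exact absurd h not_mem_tn_var
      · cases p with
        | nil => rfl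
        | cons i p => exact absurd h (by simp [Tm.subAt])
  | app g b ih =>
    cases p with
    | nil =>
      rw [nil_mem_tv, nil_mem_tn, subAt_nilT]
      constructor
      · intro h
        exact Or.inl h
      · rintro (h | ⟨y, h⟩)
        · exact h
        · exact absurd h (by simp)
    | cons i p =>
      rw [mem_tv_cons, mem_tn_cons]
      constructor
      · rintro ⟨h, hp⟩
        rcases (ih ⟨i, h⟩).1 hp with h1 | ⟨y, h1⟩
        · exact Or.inl ⟨h, h1⟩
        · exact Or.inr ⟨y, subAt_consT.2 ⟨h, h1⟩⟩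
      · rintro (⟨h, h1⟩ | ⟨y, h1⟩)
        · exact ⟨h, (ih ⟨i, h⟩).2 (Or.inl h1)⟩
        · obtain ⟨h, h1⟩ := subAt_consT.1 h1
          exact ⟨h, (ih ⟨i, h⟩).2 (Or.inr ⟨y, h1⟩)⟩

theorem tv_nonempty (hc : ∀ f : F, ar f = 0 → f ∈ T) (t : Tm F ar) : (tv T t).Nonempty := by
  induction t with
  | var x => exact ⟨[], mem_tv_var.2 rfl⟩
  | app f a ih =>
    rcases Nat.eq_zero_or_pos (ar f) with h | h
    · exact ⟨[], nil_mem_tv.2 (hc f h)⟩
    · obtain ⟨q, hq⟩ := ih ⟨0, h⟩
      exact ⟨0 :: q, mem_tv_cons.2 ⟨h, hq⟩⟩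

theorem mem_sp_cons {f : F} {A : Fin (ar f) → PT F ar} {i : ℕ} {p : List ℕ} :
    (i :: p) ∈ sp T (PT.app f A) ↔ ∃ h : i < ar f, p ∈ sp T (A ⟨i, h⟩) := by
  simp only [sp, Finset.mem_biUnion, Finset.mem_univ, true_and, Finset.mem_image,
    List.cons.injEq]
  constructor
  · rintro ⟨j, q, hq, rfl, rfl⟩
    exact ⟨j.2, hq⟩
  · rintro ⟨h, hp⟩
    exact ⟨⟨i, h⟩, p, hp, rfl, rfl⟩

theorem nil_not_mem_sp {f : F} {A : Fin (ar f) → PT F ar} : [] ∉ sp T (PT.app f A) := by
  simp [sp]

/-- A position at or below a variable position is not the position of a symbol. -/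
theorem not_mem_tn_of_var {r : Tm F ar} {k : List ℕ} {x : ℕ}
    (h : r.subAt k = some (Tm.var x)) (n : List ℕ) : k ++ n ∉ tn T r := by
  intro hn
  obtain ⟨f, a, h1, _⟩ := mem_tn_iff.1 hn
  rw [subAt_append h] at h1
  cases n with
  | nil =>
    rw [subAt_nilT] at h1
    exact absurd h1 (by simp)
  | cons i n => exact absurd h1 (by simp [Tm.subAt])

theorem mem_tn_subst {r : Tm F ar} {k : List ℕ} {x : ℕ} (h : r.subAt k = some (Tm.var x))
    (σ : ℕ → Tm F ar) (n : List ℕ) : k ++ n ∈ tn T (r.subst σ) ↔ n ∈ tn T (σ x) := by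
  induction k generalizing r with
  | nil =>
    rw [subAt_nilT] at h
    cases h
    rfl
  | cons i k ih =>
    cases r with
    | var y => exact absurd h (by simp [Tm.subAt])
    | app f a =>
      obtain ⟨hi, h⟩ := subAt_consT.1 h
      rw [List.cons_append, Tm.subst_app, mem_tn_cons]
      constructor
      · rintro ⟨_, h'⟩
        exact (ih h).1 h'
      · intro h'
        exact ⟨hi, (ih h).2 h'⟩

theorem mem_tv_subst {r : Tm F ar} {k : List ℕ} {x : ℕ} (h : r.subAt k = some (Tm.var x))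
    (σ : ℕ → Tm F ar) (n : List ℕ) : k ++ n ∈ tv T (r.subst σ) ↔ n ∈ tv T (σ x) := by
  induction k generalizing r with
  | nil =>
    rw [subAt_nilT] at h
    cases h
    rfl
  | cons i k ih =>
    cases r with
    | var y => exact absurd h (by simp [Tm.subAt])
    | app f a =>
      obtain ⟨hi, h⟩ := subAt_consT.1 h
      rw [List.cons_append, Tm.subst_app, mem_tv_cons]
      constructor
      · rintro ⟨_, h'⟩
        exact (ih h).1 h'
      · intro h'
        exact ⟨hi, (ih h).2 h'⟩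

theorem tn_subset_subst (r : Tm F ar) (σ : ℕ → Tm F ar) : tn T r ⊆ tn T (r.subst σ) := by
  intro p hp
  induction r generalizing p with
  | var x => exact absurd hp not_mem_tn_var
  | app f a ih =>
    rw [Tm.subst_app]
    cases p with
    | nil => exact nil_mem_tn.2 (nil_mem_tn.1 hp)
    | cons i p =>
      obtain ⟨h, hp⟩ := mem_tn_cons.1 hp
      exact mem_tn_cons.2 ⟨h, ih ⟨i, h⟩ hp⟩

theorem tn_subset_tv (r : Tm F ar) : tn T r ⊆ tv T r := by
  intro p hp
  exact mem_tv_iff.2 (Or.inl hp)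

theorem tn_subst_cases {r : Tm F ar} {σ : ℕ → Tm F ar} {p : List ℕ}
    (h : p ∈ tn T (r.subst σ)) :
    p ∈ tn T r ∨ ∃ k x n, r.subAt k = some (Tm.var x) ∧ n ∈ tn T (σ x) ∧ p = k ++ n := by
  induction r generalizing p with
  | var x => exact Or.inr ⟨[], x, p, subAt_nilT _, h, rfl⟩
  | app f a ih =>
    rw [Tm.subst_app] at h
    cases p with
    | nil => exact Or.inl (nil_mem_tn.2 (nil_mem_tn.1 h))
    | cons i p =>
      obtain ⟨hi, hp⟩ := mem_tn_cons.1 h
      rcases ih ⟨i, hi⟩ hp with h1 | ⟨k, x, n, h1, h2, h3⟩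
      · exact Or.inl (mem_tn_cons.2 ⟨hi, h1⟩)
      · exact Or.inr ⟨i :: k, x, n, subAt_consT.2 ⟨hi, h1⟩, h2, by rw [h3, List.cons_append]⟩

theorem tv_subst_cases {r : Tm F ar} {σ : ℕ → Tm F ar} {p : List ℕ}
    (h : p ∈ tv T (r.subst σ)) :
    p ∈ tn T r ∨ ∃ k x n, r.subAt k = some (Tm.var x) ∧ n ∈ tv T (σ x) ∧ p = k ++ n := by
  induction r generalizing p with
  | var x => exact Or.inr ⟨[], x, p, subAt_nilT _, h, rfl⟩
  | app f a ih =>
    rw [Tm.subst_app] at h
    cases p with
    | nil => exact Or.inl (nil_mem_tn.2 (nil_mem_tv.1 h))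
    | cons i p =>
      obtain ⟨hi, hp⟩ := mem_tv_cons.1 h
      rcases ih ⟨i, hi⟩ hp with h1 | ⟨k, x, n, h1, h2, h3⟩
      · exact Or.inl (mem_tn_cons.2 ⟨hi, h1⟩)
      · exact Or.inr ⟨i :: k, x, n, subAt_consT.2 ⟨hi, h1⟩, h2, by rw [h3, List.cons_append]⟩

/-- Variable positions are incomparable. -/
theorem varpos_eq {r : Tm F ar} {k k' a b : List ℕ} {x x' : ℕ}
    (h : r.subAt k = some (Tm.var x)) (h' : r.subAt k' = some (Tm.var x'))
    (he : k ++ a = k' ++ b) : k = k' ∧ x = x' ∧ a = b := by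
  induction k generalizing r k' with
  | nil =>
    rw [subAt_nilT] at h
    cases h
    cases k' with
    | nil =>
      rw [subAt_nilT] at h'
      cases h'
      exact ⟨rfl, rfl, he⟩
    | cons i k' => exact absurd h' (by simp [Tm.subAt])
  | cons i k ih =>
    cases r with
    | var y => exact absurd h (by simp [Tm.subAt])
    | app f a' =>
      cases k' with
      | nil => exact absurd h' (by simp [Tm.subAt])
      | cons j k' =>
        rw [List.cons_append, List.cons_append] at he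
        injection he with h1 h2
        subst h1
        obtain ⟨hi, h⟩ := subAt_consT.1 h
        obtain ⟨hj, h'⟩ := subAt_consT.1 h'
        obtain ⟨e1, e2, e3⟩ := ih h h' h2
        exact ⟨by rw [e1], e2, e3⟩

end Pool.Agent.Work.MP_d87e04_lc.CG
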