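import Pool.Agent.Work.MP_d87e04_lc.CG.TNice
import Pool.Agent.Work.MP_d87e04_lc.CF.SqB

/-!
# Module TSq (M): the square of a root step and a step inside the substitution

`A = rl q σ`, `B = lsub τ q.1`, `C = lsub τ q.2`, `D = rl q (fun x => (τ x).tgt)`. Compare
`CF/SqB.lean` (there `PT.src_lsub`, `PT.tgt_lsub`, `PT.ok_lsub`).

A tracked point `w` of `tgt C = q.2.subst (tgt ∘ τ)` is (`tv_subst_cases`)
* `w ∈ tn q.2`: `ac C w = {w}` (`ac_lsub_tn`), `ac D w = tn q.1` (`ac_rl_tn`); for `h ∈ tn q.1`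
  `ac B h = {h}`, `ac A w = tn q.1`; or
* `w = k ++ n` with `q.2.subAt k = var x`, `n ∈ tv (tgt (τ x))`: `ac C w` is the image of
  `ac (τ x) n` under `k ++ ·` (`ac_lsub_var`), `ac D w = {vpos q.1 x ++ n}` (`ac_rl_var`),
  `ac A (k ++ e₀) = {vpos q.1 x ++ e₀}`, `ac B (vpos q.1 x ++ n)` is the image of `ac (τ x) n`
  (`vpos_spec`; `x` occurs in `q.1` by `hR.trs`).
`inj`: two points of the first kind: `{w} = {w'}`; mixed: excluded by `not_mem_tn_of_var`; two of
the second kind: `varpos_eq` and cancellation. `supC`: `sp_lsub_cases`. `supD`: `nice` for `B`.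
-/

set_option autoImplicit false

namespace Pool.Agent.Work.MP_d87e04_lc.CG

open Pool.Agent.Work.MP_d87e04_lc.CF

universe u

variable {F : Type u} {ar : F → ℕ} {T : Set F}

private theorem subAt_nilS (t : Tm F ar) : t.subAt [] = some t := by
  cases t <;> rfl

private theorem subAt_consS {f : F} {a : Fin (ar f) → Tm F ar} {i : ℕ} {p : List ℕ}
    {s : Tm F ar} : (Tm.app f a).subAt (i :: p) = some s ↔
      ∃ h : i < ar f, (a ⟨i, h⟩).subAt p = some s := by
  simp only [Tm.subAt]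
  constructor
  · intro h
    split at h
    · rename_i hi
      exact ⟨hi, h⟩
    · exact absurd h (by simp)
  · rintro ⟨h, hs⟩
    rw [dif_pos h]
    exact hs

theorem ac_lsub_var (τ : ℕ → PT F ar) {t : Tm F ar} {k : List ℕ} {x : ℕ}
    (h : t.subAt k = some (Tm.var x)) (p : List ℕ) :
    ac T (PT.lsub τ t) (k ++ p) = (ac T (τ x) p).image (k ++ ·) := by
  induction k generalizing t with
  | nil =>
    rw [subAt_nilS] at h
    cases h
    rw [List.nil_append, PT.lsub]
    exact (Finset.image_id (s := ac T (τ x) p)).symm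
  | cons i k ih =>
    cases t with
    | var y => exact absurd h (by simp [Tm.subAt])
    | app f a =>
      obtain ⟨hi, h⟩ := subAt_consS.1 h
      rw [List.cons_append, PT.lsub, ac, dif_pos hi, ih h, Finset.image_image]
      rfl

theorem ac_lsub_tn (τ : ℕ → PT F ar) {t : Tm F ar} {e : List ℕ} (h : e ∈ tn T t) :
    ac T (PT.lsub τ t) e = {e} := by
  induction t generalizing e with
  | var x => exact absurd h not_mem_tn_var
  | app f a ih =>
    rw [PT.lsub]
    cases e with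
    | nil => rw [ac]
    | cons i e =>
      obtain ⟨hi, h⟩ := mem_tn_cons.1 h
      rw [ac, dif_pos hi, ih ⟨i, hi⟩ h, Finset.image_singleton]

theorem mem_sp_lsub (τ : ℕ → PT F ar) {t : Tm F ar} {k : List ℕ} {x : ℕ}
    (h : t.subAt k = some (Tm.var x)) (p : List ℕ) :
    k ++ p ∈ sp T (PT.lsub τ t) ↔ p ∈ sp T (τ x) := by
  induction k generalizing t with
  | nil =>
    rw [subAt_nilS] at h
    cases h
    exact Iff.rfl
  | cons i k ih =>
    cases t with
    | var y => exact absurd h (by simp [Tm.subAt])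
    | app f a =>
      obtain ⟨hi, h⟩ := subAt_consS.1 h
      rw [List.cons_append, PT.lsub, mem_sp_cons]
      exact ⟨fun ⟨_, h'⟩ => (ih h).1 h', fun h' => ⟨hi, (ih h).2 h'⟩⟩

theorem sp_lsub_cases (τ : ℕ → PT F ar) {t : Tm F ar} {p : List ℕ}
    (h : p ∈ sp T (PT.lsub τ t)) :
    ∃ k x n, t.subAt k = some (Tm.var x) ∧ n ∈ sp T (τ x) ∧ p = k ++ n := by
  induction t generalizing p with
  | var x => exact ⟨[], x, p, rfl, h, rfl⟩
  | app f a ih =>
    rw [PT.lsub] at h
    cases p with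
    | nil => exact absurd h nil_not_mem_sp
    | cons i p =>
      obtain ⟨hi, hp⟩ := mem_sp_cons.1 h
      obtain ⟨k, x, n, h1, h2, h3⟩ := ih ⟨i, hi⟩ hp
      exact ⟨i :: k, x, n, subAt_consS.2 ⟨hi, h1⟩, h2, by rw [h3, List.cons_append]⟩

theorem sq_rl {R : Set (Rule F ar)} (hR : Cg R T) {q : Rule F ar} (hq : q ∈ R)
    {τ : ℕ → PT F ar} (hτ : ∀ x, (τ x).OK R) :
    (cal ar T).Sq (PT.rl q fun x => (τ x).src) (PT.lsub τ q.1) (PT.lsub τ q.2)
      (PT.rl q fun x => (τ x).tgt) := by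
  have hv : ∀ {k : List ℕ} {x : ℕ}, q.2.subAt k = some (Tm.var x) →
      q.1.subAt (vpos q.1 x) = some (Tm.var x) := fun h =>
    vpos_spec ((hR.trs q hq).2 _ (occ_of_subAt h))
  refine ⟨?_, ?_, ?_, ?_, ?_, ?_, ?_, ?_⟩
  · exact (PT.src_lsub τ q.1).symm
  · exact PT.src_lsub τ q.2
  · exact (PT.tgt_lsub τ q.1).symm
  · exact PT.tgt_lsub τ q.2
  · change ∀ w ∈ tv T (PT.lsub τ q.2).tgt, ∀ e ∈ ac T (PT.lsub τ q.2) w,
      ∀ h ∈ ac T (PT.rl q fun x => (τ x).tgt) w,
        ∃ f ∈ ac T (PT.rl q fun x => (τ x).src) e, f ∈ ac T (PT.lsub τ q.1) h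
    intro w hw e he h hh
    rw [PT.tgt_lsub] at hw
    rcases tv_subst_cases hw with h1 | ⟨k, x, n, h1, h2, rfl⟩
    · rw [ac_lsub_tn τ h1, Finset.mem_singleton] at he
      subst he
      rw [ac_rl_tn h1] at hh
      refine ⟨h, ?_, ?_⟩
      · rw [ac_rl_tn h1]
        exact hh
      · rw [ac_lsub_tn τ hh]
        exact Finset.mem_singleton_self h
    · rw [ac_lsub_var τ h1, Finset.mem_image] at he
      obtain ⟨e0, he0, rfl⟩ := he
      rw [ac_rl_var h1, Finset.mem_singleton] at hh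
      subst hh
      refine ⟨vpos q.1 x ++ e0, ?_, ?_⟩
      · rw [ac_rl_var h1]
        exact Finset.mem_singleton_self _
      · rw [ac_lsub_var τ (hv h1)]
        exact Finset.mem_image_of_mem _ he0
  · change ∀ w ∈ tv T (PT.lsub τ q.2).tgt, ∀ w' ∈ tv T (PT.lsub τ q.2).tgt,
      ∀ e ∈ ac T (PT.lsub τ q.2) w, e ∈ ac T (PT.lsub τ q.2) w' →
      ∀ h ∈ ac T (PT.rl q fun x => (τ x).tgt) w, h ∈ ac T (PT.rl q fun x => (τ x).tgt) w' →
        w = w'
    intro w hw w' hw' e he he' h hh hh'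
    rw [PT.tgt_lsub] at hw hw'
    rcases tv_subst_cases hw with h1 | ⟨k, x, n, h1, h2, rfl⟩
    · rw [ac_lsub_tn τ h1, Finset.mem_singleton] at he
      subst he
      rcases tv_subst_cases hw' with h1' | ⟨k', x', n', h1', h2', rfl⟩
      · rw [ac_lsub_tn τ h1', Finset.mem_singleton] at he'
        exact he'
      · rw [ac_lsub_var τ h1', Finset.mem_image] at he'
        obtain ⟨e0, _, rfl⟩ := he'
        exact absurd h1 (not_mem_tn_of_var h1' e0)
    · rcases tv_subst_cases hw' with h1' | ⟨k', x', n', h1', h2', rfl⟩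
      · rw [ac_lsub_tn τ h1', Finset.mem_singleton] at he'
        subst he'
        rw [ac_lsub_var τ h1, Finset.mem_image] at he
        obtain ⟨e0, _, rfl⟩ := he
        exact absurd h1' (not_mem_tn_of_var h1 e0)
      · rw [ac_lsub_var τ h1, Finset.mem_image] at he
        obtain ⟨e0, _, rfl⟩ := he
        rw [ac_lsub_var τ h1', Finset.mem_image] at he'
        obtain ⟨e0', _, he1⟩ := he'
        obtain ⟨hk, hx, _⟩ := varpos_eq h1' h1 he1
        subst hk
        subst hx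
        rw [ac_rl_var h1, Finset.mem_singleton] at hh
        rw [ac_rl_var h1', Finset.mem_singleton] at hh'
        have hn : n = n' := List.append_cancel_left (hh.symm.trans hh')
        rw [hn]
  · change ∀ p ∈ sp T (PT.lsub τ q.2),
      ac T (PT.rl q fun x => (τ x).src) p ⊆ sp T (PT.lsub τ q.1)
    intro p hp
    obtain ⟨k, x, n, h1, h2, rfl⟩ := sp_lsub_cases τ hp
    rw [ac_rl_var h1, Finset.singleton_subset_iff]
    exact (mem_sp_lsub τ (hv h1) n).2 h2
  · change ∀ p ∈ tv T (q.1.subst fun x => (τ x).tgt),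
      ac T (PT.lsub τ q.1) p ⊆ tv T (q.1.subst fun x => (τ x).src)
    intro p hp
    have h1 := (nice hR (PT.ok_lsub hτ q.1)).anc_sub p
    change p ∈ tv T (PT.lsub τ q.1).tgt → ac T (PT.lsub τ q.1) p ⊆ tv T (PT.lsub τ q.1).src at h1
    rw [PT.tgt_lsub, PT.src_lsub] at h1
    exact h1 hp

end Pool.Agent.Work.MP_d87e04_lc.CG
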