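import Pool.Agent.Work.MP_d87e04_lc.CG.TNice

/-!
# Module TPsub (M): ancestors under substitution

Structural induction on `A`; `PT.anc` is the ancestor function of `CF/Defs.lean`.

* `ac_psub_tn`: `var`: `tn` is empty; `rl q σ`: `ac T (rl q σ)` does not depend on `σ`.
* `subAt_anc_var`: for `rl q σ`: from `(q.2 σ).subAt k = var v` one gets `k = k₁ ++ k₂`,
  `q.2.subAt k₁ = var x`, `(σ x).subAt k₂ = var v` (private lemma, induction on `q.2`), then
  `PT.anc k = vpos q.1 x ++ k₂` (`along_append`), and `vpos_spec` (`x` occurs in `q.1`),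
  `Tm.subAt_subst`, `subAt_append`.
* `ac_psub_var`: same decomposition, `ac_rl_var`; for `A = var x`: `psub` is `ofTm (δ x)`,
  `ac_ofTm`.
-/

set_option autoImplicit false

namespace Pool.Agent.Work.MP_d87e04_lc.CG

open Pool.Agent.Work.MP_d87e04_lc.CF

universe u

variable {F : Type u} {ar : F → ℕ} {T : Set F}

private theorem subAt_subst_var {r : Tm F ar} {σ : ℕ → Tm F ar} {k : List ℕ} {v : ℕ}
    (h : (r.subst σ).subAt k = some (Tm.var v)) :
    ∃ k₁ x k₂, r.subAt k₁ = some (Tm.var x) ∧ (σ x).subAt k₂ = some (Tm.var v) ∧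
      k = k₁ ++ k₂ := by
  induction r generalizing k with
  | var x => exact ⟨[], x, k, rfl, h, rfl⟩
  | app f a ih =>
    cases k with
    | nil => simp [Tm.subAt] at h
    | cons i k =>
      by_cases hi : i < ar f
      · rw [Tm.subst_app, Tm.subAt, dif_pos hi] at h
        obtain ⟨k₁, x, k₂, h1, h2, h3⟩ := ih ⟨i, hi⟩ h
        refine ⟨i :: k₁, x, k₂, ?_, h2, by rw [h3, List.cons_append]⟩
        rw [Tm.subAt, dif_pos hi]
        exact h1
      · rw [Tm.subst_app, Tm.subAt, dif_neg hi] at h
        cases h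

theorem ac_psub_tn (δ : ℕ → Tm F ar) {A : PT F ar} {e : List ℕ} (he : e ∈ tn T A.tgt) :
    ac T (A.psub δ) e = ac T A e := by
  induction A generalizing e with
  | var x => exact absurd he not_mem_tn_var
  | app f A ih =>
    cases e with
    | nil => simp only [PT.psub, ac]
    | cons i e =>
      simp only [PT.tgt] at he
      obtain ⟨hi, he⟩ := mem_tn_cons.1 he
      simp only [PT.psub, ac, dif_pos hi]
      rw [ih ⟨i, hi⟩ he]
  | rl q σ => simp only [PT.psub, ac]

/-- The ancestor of a variable position of the target carries the same variable. -/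
theorem subAt_anc_var {R : Set (Rule F ar)} (hR : IsTRS R) {A : PT F ar} (hA : A.OK R)
    {k : List ℕ} {v : ℕ} (h : A.tgt.subAt k = some (Tm.var v)) :
    A.src.subAt (A.anc k) = some (Tm.var v) := by
  induction A generalizing k with
  | var x =>
    simp only [PT.tgt] at h
    simp only [PT.src, PT.anc]
    exact h
  | app f A ih =>
    cases k with
    | nil => simp [PT.tgt, Tm.subAt] at h
    | cons i k =>
      by_cases hi : i < ar f
      · simp only [PT.tgt, Tm.subAt, dif_pos hi] at h
        simp only [PT.src, PT.anc, dif_pos hi, Tm.subAt]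
        exact ih ⟨i, hi⟩ (hA ⟨i, hi⟩) h
      · simp only [PT.tgt, Tm.subAt, dif_neg hi] at h
        cases h
  | rl q σ =>
    have hq : q ∈ R := hA
    obtain ⟨k₁, x, k₂, h1, h2, rfl⟩ := subAt_subst_var h
    have hocc : 0 < q.1.occ x := (hR q hq).2 x (occ_of_subAt h1)
    have hv := vpos_spec hocc
    simp only [PT.src, PT.anc]
    rw [along_append h1]
    rw [subAt_append (Tm.subAt_subst σ _ _ _ hv)]
    exact h2

theorem ac_psub_var (δ : ℕ → Tm F ar) {A : PT F ar} {k : List ℕ} {v : ℕ}
    (h : A.tgt.subAt k = some (Tm.var v)) (n : List ℕ) :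
    ac T (A.psub δ) (k ++ n) = {A.anc k ++ n} := by
  induction A generalizing k with
  | var x => simp only [PT.psub, ac_ofTm, PT.anc]
  | app f A ih =>
    cases k with
    | nil => simp [PT.tgt, Tm.subAt] at h
    | cons i k =>
      by_cases hi : i < ar f
      · simp only [PT.tgt, Tm.subAt, dif_pos hi] at h
        simp only [PT.psub, List.cons_append, ac, PT.anc, dif_pos hi]
        rw [ih ⟨i, hi⟩ h, Finset.image_singleton]
      · simp only [PT.tgt, Tm.subAt, dif_neg hi] at h
        cases h
  | rl q σ =>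
    obtain ⟨k₁, x, k₂, h1, h2, rfl⟩ := subAt_subst_var h
    simp only [PT.psub, PT.anc]
    rw [List.append_assoc, ac_rl_var h1, along_append h1, List.append_assoc]

end Pool.Agent.Work.MP_d87e04_lc.CG
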