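import Pool.Agent.Work.MP_d87e04_lc.CG.TStar
import Pool.Agent.Work.MP_d87e04_lc.CG.TPsub

/-!
# Module TTri (M-L): the triangle of a critical overlap

`N = NN q.1 q'.1 p`, `t = q.1 σ`, `σ' x = cut N (vpos q.1 x) (σ x)`,
`ψ' x = cut N (p ++ vpos q'.1 x) (ψ x)`; `cut N [] t = q.1 σ'`, `cut N p (q'.1 ψ) = q'.1 ψ'`,
`u σ' = q'.1 ψ'`. The triangle of the truncated terms gives the triangle of the terms.
-/

set_option autoImplicit false

namespace Pool.Agent.Work.MP_d87e04_lc.CG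

open Pool.Agent.Work.MP_d87e04_lc.CF

universe u

variable {F : Type u} {ar : F → ℕ} {T : Set F}

private theorem comm_cut {R : Set (Rule F ar)} (hR : Cg R T) {N : Set (List ℕ)}
    {t : Tm F ar} (δ : ℕ → Tm F ar) {W W' Z : PT F ar} (hW : W.OK R) (hW' : W'.OK R)
    (hZ : Z.OK R) (h1 : W.src = cut N [] t) (h2 : W'.src = cut N [] t)
    (h3 : Z.src = W.tgt) (h4 : Z.tgt = W'.tgt)
    (hs : ∀ h ∈ tn T W.tgt, ∀ e ∈ tn T W'.tgt, ∃ f ∈ ac T W h, f ∈ ac T W' e) :
    ∀ e ∈ tv T (W'.tgt.subst δ), ∀ h ∈ ac T (Z.psub δ) e,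
      ∃ f ∈ ac T (W.psub δ) h, f ∈ ac T (W'.psub δ) e := by
  intro e he h hh
  rcases tv_subst_cases he with h5 | ⟨k, v, n, hk, hn, rfl⟩
  · have h6 : e ∈ tn T Z.tgt := by rw [h4]; exact h5
    rw [ac_psub_tn δ h6] at hh
    have h7 : h ∈ tn T W.tgt := by
      rw [← h3]
      exact ac_tn hR hZ e h6 hh
    rw [ac_psub_tn δ h7, ac_psub_tn δ h5]
    exact hs h h7 e h5
  · have hkZ : Z.tgt.subAt k = some (Tm.var v) := by rw [h4]; exact hk
    rw [ac_psub_var δ hkZ, Finset.mem_singleton] at hh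
    subst hh
    have a1 := subAt_anc_var hR.trs hZ hkZ
    rw [h3] at a1
    have a2 := subAt_anc_var hR.trs hW a1
    have a3 := subAt_anc_var hR.trs hW' hk
    rw [h1] at a2
    rw [h2] at a3
    have b2 := cut_var a2
    have b3 := cut_var a3
    have b4 := enc_inj (b2.symm.trans b3)
    simp only [List.nil_append] at b4
    rw [ac_psub_var δ a1, ac_psub_var δ hk, b4]
    exact ⟨_, Finset.mem_singleton_self _, Finset.mem_singleton_self _⟩

private theorem subAt_prefix {t u : Tm F ar} {a b : List ℕ} {i : ℕ}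
    (h : t.subAt (a ++ i :: b) = some u) : ∃ f c, t.subAt a = some (Tm.app f c) := by
  induction a generalizing t with
  | nil =>
    cases t with
    | var x => cases h
    | app f c => exact ⟨f, c, rfl⟩
  | cons j a ih =>
    cases t with
    | var x => cases h
    | app f c =>
      rw [List.cons_append, Tm.subAt] at h
      split at h
      · rename_i hj
        obtain ⟨f', c', h'⟩ := ih h
        refine ⟨f', c', ?_⟩
        rw [Tm.subAt, dif_pos hj]
        exact h'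
      · cases h

theorem tri_base {R : Set (Rule F ar)} (hR : Cg R T)
    (hC : ∀ t s, CriticalPair R t s → Par R s t ∨ Par R t s)
    {q : Rule F ar} (hq : q ∈ R) {σ : ℕ → Tm F ar} {p : List ℕ} {u : Tm F ar}
    {q' : Rule F ar} {ψ : ℕ → Tm F ar} (h1 : q.1.subAt p = some u) (h2 : ∀ x, u ≠ Tm.var x)
    (h3 : q' ∈ R) (h4 : u.subst σ = q'.1.subst ψ) (hO : OvC T q'.1 q'.2 q.1 q.2 p) :
    ∃ Z : PT F ar, Z.OK R ∧
      ((cal ar T).Tri (PT.rl q σ) (PT.atp (q.1.subst σ) p (PT.rl q' ψ)) Z ∨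
        (cal ar T).Tri (PT.atp (q.1.subst σ) p (PT.rl q' ψ)) (PT.rl q σ) Z) := by
  classical
  have hl : q.1.Linear := hR.ll q hq
  have hl' : q'.1.Linear := hR.ll q' h3
  let N : Set (List ℕ) := NN q.1 q'.1 p
  let σ' : ℕ → Tm F ar := fun x => cut N (vpos q.1 x) (σ x)
  let ψ' : ℕ → Tm F ar := fun x => cut N (p ++ vpos q'.1 x) (ψ x)
  have hA : cut N [] (q.1.subst σ) = q.1.subst σ' := by
    refine cut_subst_pat (fun k f a hk => ?_) fun k x hk => ?_
    · rw [List.nil_append]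
      exact Or.inl ⟨f, a, hk⟩
    · show cut N (vpos q.1 x) (σ x) = _
      rw [vpos_eq hl hk, List.nil_append]
  have hB : cut N p (q'.1.subst ψ) = q'.1.subst ψ' := by
    refine cut_subst_pat (fun k f a hk => Or.inr ⟨k, f, a, rfl, hk⟩) fun k x hk => ?_
    show cut N (p ++ vpos q'.1 x) (ψ x) = _
    rw [vpos_eq hl' hk]
  have hat : (q.1.subst σ).subAt p = some (q'.1.subst ψ) := by
    rw [Tm.subAt_subst σ q.1 p u h1, h4]
  have hat' : (q.1.subst σ').subAt p = some (q'.1.subst ψ') := by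
    rw [← hA, cut_at hat (fun a i b hab => ?_), List.nil_append, hB]
    rw [List.nil_append]
    refine Or.inl ?_
    rw [hab] at h1
    exact subAt_prefix h1
  have hC' : u.subst σ' = q'.1.subst ψ' := by
    have := Tm.subAt_subst σ' q.1 p u h1
    rw [hat'] at this
    exact (Option.some.inj this).symm
  have hN : ∀ e ∈ tn T (q.1.subst σ'), e ∈ NN q.1 q'.1 p := by
    intro e he
    rw [← hA] at he
    have := (tn_cut he).2
    rwa [List.nil_append] at this
  have hst := fun h (hh : h ∈ tn T (q.2.subst σ')) e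
    (he : e ∈ tn T (PT.atp (q.1.subst σ') p (PT.rl q' ψ')).tgt) =>
      star hR hq h3 h1 h2 hC' hN hO hh he
  obtain ⟨δ, hδt⟩ := uncut N (q.1.subst σ)
  rw [hA] at hδt
  have hσδ : ∀ x, 0 < q.1.occ x → (σ' x).subst δ = σ x := by
    rw [Tm.subst_subst] at hδt
    exact Tm.subst_inj q.1 hδt
  have hψt : (q'.1.subst ψ').subst δ = q'.1.subst ψ := by
    have := Tm.subAt_subst δ (q.1.subst σ') p _ hat'
    rw [hδt, hat] at this
    exact (Option.some.inj this).symm
  have hψδ : ∀ x, 0 < q'.1.occ x → (ψ' x).subst δ = ψ x := by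
    rw [Tm.subst_subst] at hψt
    exact Tm.subst_inj q'.1 hψt
  have hX : (q.2.subst σ').subst δ = q.2.subst σ := by
    rw [Tm.subst_subst]
    exact Tm.subst_congr q.2 fun x hx => hσδ x ((hR.trs q hq).2 x hx)
  have hY2 : (q'.2.subst ψ').subst δ = q'.2.subst ψ := by
    rw [Tm.subst_subst]
    exact Tm.subst_congr q'.2 fun x hx => hψδ x ((hR.trs q' h3).2 x hx)
  -- the steps
  set X : PT F ar := PT.rl q σ with hXd
  set Y : PT F ar := PT.atp (q.1.subst σ) p (PT.rl q' ψ) with hYd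
  let X' : PT F ar := PT.rl q σ'
  let Y' : PT F ar := PT.atp (q.1.subst σ') p (PT.rl q' ψ')
  have okX : X.OK R := hq
  have okX' : X'.OK R := hq
  have okY : Y.OK R := PT.ok_atp (A := PT.rl q' ψ) h3
  have okY' : Y'.OK R := PT.ok_atp (A := PT.rl q' ψ') h3
  have srcX : X.src = q.1.subst σ := rfl
  have srcX' : X'.src = q.1.subst σ' := rfl
  have srcY : Y.src = q.1.subst σ := PT.src_atp (A := PT.rl q' ψ) hat
  have srcY' : Y'.src = q.1.subst σ' := PT.src_atp (A := PT.rl q' ψ') hat'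
  have tgtY : Y.tgt = (q.1.subst σ).repl p (q'.2.subst ψ) := PT.tgt_atp (A := PT.rl q' ψ) hat
  have tgtY' : Y'.tgt = (q.1.subst σ').repl p (q'.2.subst ψ') :=
    PT.tgt_atp (A := PT.rl q' ψ') hat'
  have tX : X'.tgt.subst δ = X.tgt := hX
  have tY : Y'.tgt.subst δ = Y.tgt := by
    rw [tgtY', tgtY, Tm.repl_subst δ _ _ p _ hat', hδt, hY2]
  have acX : ac T X = ac T (X'.psub δ) := by
    funext e
    simp only [hXd, X', PT.psub, ac]
  have acY : ac T Y = ac T (Y'.psub δ) := by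
    have e2 : Y'.psub δ = PT.atp (q.1.subst σ) p ((PT.rl q' ψ').psub δ) := by
      show (PT.atp (q.1.subst σ') p (PT.rl q' ψ')).psub δ = _
      rw [PT.psub_atp δ (A := PT.rl q' ψ') hat', hδt]
    rw [e2]
    refine ac_atp_congr ?_
    funext e
    simp only [PT.psub, ac]
  have supX : sp T X = tv T (q.1.subst σ) := rfl
  have nX := nice hR okX
  have nY := nice hR okY
  have ancX : ∀ e ∈ tv T X.tgt, ac T X e ⊆ tv T X.src := nX.anc_sub
  have ancY : ∀ e ∈ tv T Y.tgt, ac T Y e ⊆ tv T Y.src := nY.anc_sub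
  have supY : sp T Y ⊆ tv T Y.src := nY.sup_sub
  have meet : (sp T X ∩ sp T Y).Nonempty := by
    have hne : (tv T (q'.1.subst ψ)).Nonempty := by
      rcases hR.ne with h | h
      · obtain ⟨m, hm⟩ := h q' h3
        exact ⟨m, tn_subset_tv _ (tn_subset_subst _ _ hm)⟩
      · exact tv_nonempty h _
    obtain ⟨e, he⟩ := hne
    have hm : p ++ e ∈ sp T Y := (mem_sp_atp (A := PT.rl q' ψ) hat _).2 ⟨e, he, rfl⟩
    have hm2 : p ++ e ∈ tv T Y.src := supY hm
    rw [srcY] at hm2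
    exact ⟨p ++ e, Finset.mem_inter.2 ⟨hm2, hm⟩⟩
  have hlin : ∀ {W : PT F ar}, W.src = q.1.subst σ' → W.src = cut N [] (q.1.subst σ) :=
    fun h => h.trans hA.symm
  rcases overlapQ hR.trs hR.ll hC hq (σ := σ') (ψ := ψ') h1 h2 h3 hC' with h | h
  · obtain ⟨Z', okZ', srcZ', tgtZ'⟩ := exists_pt h
    have hc := comm_cut hR δ okX' okY' okZ' (hlin srcX') (hlin srcY') srcZ'
      (tgtZ'.trans tgtY'.symm) hst
    have okZ : (Z'.psub δ).OK R := PT.ok_psub δ okZ'
    have srcZ : (Z'.psub δ).src = X.tgt := by rw [PT.src_psub, srcZ']; exact hX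
    have tgtZ : (Z'.psub δ).tgt = Y.tgt := by rw [PT.tgt_psub, tgtZ', ← tgtY', tY]
    refine ⟨Z'.psub δ, okZ, Or.inl ⟨?_, srcZ, tgtZ, ?_, ?_, meet⟩⟩
    · show X.src = Y.src
      rw [srcX, srcY]
    · show ∀ e ∈ tv T Y.tgt, ∀ h ∈ ac T (Z'.psub δ) e, ∃ f ∈ ac T X h, f ∈ ac T Y e
      intro e he
      rw [← tY] at he
      rw [acX, acY]
      exact hc e he
    · show ∀ e ∈ sp T (Z'.psub δ), ac T X e ⊆ sp T X ∪ sp T Y
      intro e he
      have he1 : e ∈ tv T (Z'.psub δ).src := (nice hR okZ).sup_sub he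
      rw [srcZ] at he1
      exact (ancX e he1).trans Finset.subset_union_left
  · obtain ⟨Z', okZ', srcZ', tgtZ'⟩ := exists_pt h
    have hc := comm_cut hR δ okY' okX' okZ' (hlin srcY') (hlin srcX')
      (srcZ'.trans tgtY'.symm) tgtZ' (fun h hh e he => by
        obtain ⟨f, hf1, hf2⟩ := hst e he h hh
        exact ⟨f, hf2, hf1⟩)
    have okZ : (Z'.psub δ).OK R := PT.ok_psub δ okZ'
    have srcZ : (Z'.psub δ).src = Y.tgt := by rw [PT.src_psub, srcZ', ← tgtY', tY]
    have tgtZ : (Z'.psub δ).tgt = X.tgt := by rw [PT.tgt_psub, tgtZ']; exact hX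
    refine ⟨Z'.psub δ, okZ, Or.inr ⟨?_, srcZ, tgtZ, ?_, ?_, ?_⟩⟩
    · show Y.src = X.src
      rw [srcX, srcY]
    · show ∀ e ∈ tv T X.tgt, ∀ h ∈ ac T (Z'.psub δ) e, ∃ f ∈ ac T Y h, f ∈ ac T X e
      intro e he
      rw [← tX] at he
      rw [acX, acY]
      exact hc e he
    · show ∀ e ∈ sp T (Z'.psub δ), ac T Y e ⊆ sp T Y ∪ sp T X
      intro e he
      have he1 : e ∈ tv T (Z'.psub δ).src := (nice hR okZ).sup_sub he
      rw [srcZ] at he1
      have h5 := ancY e he1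
      rw [srcY] at h5
      exact h5.trans Finset.subset_union_right
    · show (sp T Y ∩ sp T X).Nonempty
      rw [Finset.inter_comm]
      exact meet

end Pool.Agent.Work.MP_d87e04_lc.CG
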