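import Pool.Agent.Work.MP_d87e04_lc.CG.TLv

/-!
# Module TVar (S-M): variants at the root satisfy `OvC`

`q' = (l, r)`, `q = (g, d)` variants: `l.ren π = g`, `r.ren π = d`. A renaming does not change
positions of symbols, so `tn T l = tn T g`, `tn T r = tn T d`. First part of `OvC`: if `tn T r` is
not empty, `hR.cr` gives `m ∈ tn T l = tn T g` (`p = []`). Second part: `InhS` is impossible: a
position `m₁ ++ m₂` of `tn T l = tn T g` is not below the variable position `m₁` of `g`
(`not_mem_tn_of_var`).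
-/

set_option autoImplicit false

namespace Pool.Agent.Work.MP_d87e04_lc.CG

open Pool.Agent.Work.MP_d87e04_lc.CF

universe u

variable {F : Type u} {ar : F → ℕ} {T : Set F}

private theorem tn_ren' (π : ℕ → ℕ) (t : Tm F ar) : tn T (t.ren π) = tn T t := by
  induction t with
  | var x => rfl
  | app f a ih =>
    have e : (Tm.app f a).ren π = Tm.app f fun i => (a i).ren π := rfl
    rw [e, tn, tn]
    simp only [ih]

theorem ovC_of_variant {R : Set (Rule F ar)} (hR : Cg R T) {q q' : Rule F ar} (hq' : q' ∈ R)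
    (hv : Variant q' q) : OvC T q'.1 q'.2 q.1 q.2 [] := by
  obtain ⟨π, h1, h2⟩ := hv
  have e1 : tn T q.1 = tn T q'.1 := by rw [← h1, tn_ren']
  refine ⟨?_, Or.inl ?_⟩
  · by_cases h : tn T q'.2 = ∅
    · exact Or.inr (Or.inl h)
    · obtain ⟨m, hm⟩ := hR.cr q' hq' (Finset.nonempty_iff_ne_empty.2 h)
      refine Or.inl ⟨m, hm, ?_⟩
      rw [List.nil_append, e1]
      exact hm
  · rintro ⟨m₁, m₂, y, hm, hy, -⟩
    rw [List.nil_append] at hy
    rw [← e1] at hm
    exact not_mem_tn_of_var hy m₂ hm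

end Pool.Agent.Work.MP_d87e04_lc.CG
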