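import Pool.Agent.Work.MP_d87e04_lc.CG.TDef
import Pool.Agent.Work.MP_d87e04_lc.CG.Zig
import Pool.Agent.Work.MP_d87e04_lc.CG.TPeak

/-!
# Confluence by tracked symbols
-/

set_option autoImplicit false

namespace Pool.Agent.Work.MP_d87e04_lc.CG

open Pool.Agent.Work.MP_d87e04_lc.CF Relation

universe u

variable {F : Type u} {ar : F → ℕ} {T : Set F}

theorem confluent_cg {R : Set (Rule F ar)} (hR : Cg R T)
    (hC : ∀ t s, CriticalPair R t s → Par R s t ∨ Par R t s)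
    (hO : ∀ q ∈ R, ∀ q' ∈ R, ∀ (p : List ℕ) (u : Tm F ar) (σ ψ : ℕ → Tm F ar),
      q.1.subAt p = some u → (∀ x, u ≠ Tm.var x) → u.subst σ = q'.1.subst ψ →
      (p = [] → ¬ Variant q' q) → OvC T q'.1 q'.2 q.1 q.2 p) : Confluent R := by
  intro a b c hb hc
  have key : ∀ {x y : Tm F ar}, Steps R x y →
      ReflTransGen ((cal ar T).Rel {A | A.OK R}) x y := by
    intro x y h
    refine ReflTransGen.mono (fun x y hxy => ?_) _ _ h
    obtain ⟨A, hA, h1, h2⟩ := exists_pt_of_step hxy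
    exact ⟨A, hA, h1, h2⟩
  have back : ∀ {x y : Tm F ar}, ReflTransGen ((cal ar T).Rel {A | A.OK R}) x y →
      Steps R x y := by
    intro x y h
    induction h with
    | refl => exact ReflTransGen.refl
    | tail _ h2 ih =>
      obtain ⟨A, hA, h3, h4⟩ := h2
      have h5 := (PT.par (R := R) (A := A) hA).steps
      have h6 : A.src = _ := h3
      have h7 : A.tgt = _ := h4
      rw [h6, h7] at h5
      exact ih.trans h5
  obtain ⟨d, h1, h2⟩ := Cal.confluent (K := cal ar T) (G := {A | A.OK R})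
    (fun A hA => nice hR hA) (peaks hR hC hO) (key hb) (key hc)
  exact ⟨d, back h1, back h2⟩

theorem mem_tn_occAt {t : Tm F ar} {p : List ℕ} : p ∈ tn T t ↔ OccAt T t p := mem_tn_iff

theorem tn_nonempty_iff {t : Tm F ar} : (tn T t).Nonempty ↔ Occurs T t := by
  constructor
  · rintro ⟨p, hp⟩
    exact ⟨p, mem_tn_occAt.1 hp⟩
  · rintro ⟨p, hp⟩
    exact ⟨p, mem_tn_occAt.2 hp⟩

theorem tn_empty_iff {t : Tm F ar} : tn T t = ∅ ↔ ¬ Occurs T t := by
  rw [← tn_nonempty_iff, Finset.not_nonempty_iff_eq_empty]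

/-- The overlap data from an instance. -/
theorem exists_overlap {R : Set (Rule F ar)} (hL : LeftLinear R) {q q' : Rule F ar}
    (hq : q ∈ R) (hq' : q' ∈ R) {p : List ℕ} {u : Tm F ar} {σ ψ : ℕ → Tm F ar}
    (h1 : q.1.subAt p = some u) (h2 : ∀ x, u ≠ Tm.var x) (h4 : u.subst σ = q'.1.subst ψ)
    (hv : p = [] → ¬ Variant q' q) :
    ∃ ρ₁ ρ₂ θ, Overlap R q'.1 q'.2 q.1 q.2 ρ₁ ρ₂ p θ ∧
      (u.ren ρ₂).subst θ = (q'.1.ren ρ₁).subst θ := by
  let ρ₁ : ℕ → ℕ := fun x => 2 * x + 1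
  let ρ₂ : ℕ → ℕ := fun x => 2 * x
  have i1 : Function.Injective ρ₁ := fun x y h => by simp only [ρ₁] at h; omega
  have i2 : Function.Injective ρ₂ := fun x y h => by simp only [ρ₂] at h; omega
  have i12 : ∀ x y, ρ₁ x ≠ ρ₂ y := fun x y h => by simp only [ρ₁, ρ₂] at h; omega
  let χ : ℕ → Tm F ar := fun x => if x % 2 = 0 then σ (x / 2) else ψ (x / 2)
  have hχ2 : ∀ t : Tm F ar, (t.ren ρ₂).subst χ = t.subst σ := by
    intro t
    rw [Tm.ren, Tm.subst_subst]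
    refine Tm.subst_congr t fun x _ => ?_
    simp [χ, ρ₂]
  have hχ1 : ∀ t : Tm F ar, (t.ren ρ₁).subst χ = t.subst ψ := by
    intro t
    rw [Tm.ren, Tm.subst_subst]
    refine Tm.subst_congr t fun x _ => ?_
    have : (2 * x + 1) / 2 = x := by omega
    simp [χ, ρ₁, this]
  have hu : (q.1.ren ρ₂).subAt p = some (u.ren ρ₂) := Tm.subAt_subst _ _ _ _ h1
  have hlu : u.Linear := fun x => (Tm.subAt_linear _ _ _ h1 x).trans (hL q hq x)
  obtain ⟨θ, hθ, hθ'⟩ := Tm.exists_mgu (u.ren ρ₂) (q'.1.ren ρ₁) (hlu.ren i2)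
    (Tm.Linear.ren i1 (hL q' hq')) (by
      intro x hx hx'
      obtain ⟨a, ha, _⟩ := Tm.occ_ren_pos _ hx
      obtain ⟨b, hb, _⟩ := Tm.occ_ren_pos _ hx'
      exact i12 b a (hb.trans ha.symm)) ⟨χ, by rw [hχ2, hχ1, h4]⟩
  have hnv : ∀ x, u.ren ρ₂ ≠ Tm.var x := by
    intro x
    cases u with
    | var z => exact (h2 z rfl).elim
    | app f a => simp [Tm.ren]
  exact ⟨ρ₁, ρ₂, θ, ⟨hq', hq, i1, i2, i12, ⟨u.ren ρ₂, hu, hnv,
    ⟨hθ, fun τ hτ => ⟨τ, fun x => (hθ' τ hτ x).symm⟩⟩⟩, hv⟩, hθ⟩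

theorem ovC_of {R : Set (Rule F ar)} (hL : LeftLinear R)
    (hiii : ∀ l r g d ρ₁ ρ₂ p θ, Overlap R l r g d ρ₁ ρ₂ p θ →
      (∃ m, OccAt T l m ∧ OccAt T g (p ++ m)) ∨ ¬ Occurs T r ∨ ¬ Occurs T d)
    (hiv : ∀ l r g d ρ₁ ρ₂ p θ, Overlap R l r g d ρ₁ ρ₂ p θ →
      (∀ y, 0 < d.occ y → ¬ Occurs T (θ (ρ₂ y))) ∨
      ((∀ n, OccAt T g n → p <+: n) ∧ ∀ x, 0 < r.occ x → ¬ Occurs T (θ (ρ₁ x))))
    {q q' : Rule F ar} (hq : q ∈ R) (hq' : q' ∈ R) {p : List ℕ} {u : Tm F ar}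
    {σ ψ : ℕ → Tm F ar} (h1 : q.1.subAt p = some u) (h2 : ∀ x, u ≠ Tm.var x)
    (h4 : u.subst σ = q'.1.subst ψ) (hv : p = [] → ¬ Variant q' q) :
    OvC T q'.1 q'.2 q.1 q.2 p := by
  obtain ⟨ρ₁, ρ₂, θ, hov, hun⟩ := exists_overlap hL hq hq' h1 h2 h4 hv
  have hu : (q.1.ren ρ₂).subAt p = some (u.ren ρ₂) := Tm.subAt_subst _ _ _ _ h1
  refine ⟨?_, ?_⟩
  · rcases hiii _ _ _ _ _ _ _ _ hov with ⟨m, hm, hm'⟩ | h | h
    · exact Or.inl ⟨m, mem_tn_occAt.2 hm, mem_tn_occAt.2 hm'⟩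
    · exact Or.inr (Or.inl (tn_empty_iff.2 h))
    · exact Or.inr (Or.inr (tn_empty_iff.2 h))
  · rcases hiv _ _ _ _ _ _ _ _ hov with h | ⟨h, h'⟩
    · refine Or.inl ?_
      rintro ⟨m₁, m₂, y, hm, hy, hd⟩
      refine h y hd ?_
      obtain ⟨f, a, hf, hfT⟩ := mem_tn_occAt.1 hm
      have e1 : (u.ren ρ₂).subAt m₁ = some (Tm.var (ρ₂ y)) := by
        rw [← CF.subAt_append hu]
        exact Tm.subAt_subst _ _ _ _ hy
      have e2 : ((u.ren ρ₂).subst θ).subAt m₁ = some (θ (ρ₂ y)) :=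
        Tm.subAt_subst θ _ _ _ e1
      have e3 : ((q'.1.ren ρ₁).subst θ).subAt (m₁ ++ m₂) =
          some (((Tm.app f a).ren ρ₁).subst θ) :=
        Tm.subAt_subst θ _ _ _ (Tm.subAt_subst _ _ _ _ hf)
      rw [hun] at e2
      rw [CF.subAt_append e2] at e3
      exact ⟨m₂, f, _, e3, hfT⟩
    · refine Or.inr ?_
      rintro (⟨n, hn, hp⟩ | ⟨m₁, m₂, x, hm, hx, hr⟩)
      · exact hp (h n (mem_tn_occAt.1 hn))
      · refine h' x hr ?_
        obtain ⟨f, a, hf, hfT⟩ := mem_tn_occAt.1 hm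
        have e1 : ((q'.1.ren ρ₁).subst θ).subAt m₁ = some (θ (ρ₁ x)) :=
          Tm.subAt_subst θ _ _ _ (Tm.subAt_subst _ _ _ _ hx)
        have e2 : (q.1.ren ρ₂).subAt (p ++ (m₁ ++ m₂)) = some ((Tm.app f a).ren ρ₂) :=
          Tm.subAt_subst _ _ _ _ hf
        rw [CF.subAt_append hu] at e2
        have e3 := Tm.subAt_subst θ _ _ _ e2
        rw [hun, CF.subAt_append e1] at e3
        exact ⟨m₂, f, _, e3, hfT⟩

/-- The general theorem. -/
theorem confluent_tracks {R : Set (Rule F ar)} (hR : IsTRS R) (hL : LeftLinear R) {T : Set F}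
    (hT : Tracks R T) (hC : ∀ t s, CriticalPair R t s → Par R s t ∨ Par R t s) :
    Confluent R := by
  rcases hT.ii with h | h
  · exact confluent_cg (T := T)
      ⟨hR, hL, fun q hq => by rw [tn_nonempty_iff, tn_nonempty_iff]; exact hT.i q hq,
        Or.inl fun q hq => tn_nonempty_iff.2 (h q hq)⟩ hC
      fun q hq q' hq' p u σ ψ h1 h2 h4 hv => ovC_of hL hT.iii hT.iv hq hq' h1 h2 h4 hv
  · -- add the constants which do not occur in the rules
    let T' : Set F := T ∪ {f | ar f = 0 ∧ ∀ q ∈ R, ¬ Occurs {f} q.1 ∧ ¬ Occurs {f} q.2}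
    have h1 : ∀ q ∈ R, ∀ p, OccAt T' q.1 p ↔ OccAt T q.1 p := by
      intro q hq p
      constructor
      · rintro ⟨f, a, hf, hfT | ⟨-, hfT⟩⟩
        · exact ⟨f, a, hf, hfT⟩
        · exact absurd ⟨p, f, a, hf, rfl⟩ (hfT q hq).1
      · rintro ⟨f, a, hf, hfT⟩
        exact ⟨f, a, hf, Or.inl hfT⟩
    have h2 : ∀ q ∈ R, ∀ p, OccAt T' q.2 p ↔ OccAt T q.2 p := by
      intro q hq p
      constructor
      · rintro ⟨f, a, hf, hfT | ⟨-, hfT⟩⟩
        · exact ⟨f, a, hf, hfT⟩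
        · exact absurd ⟨p, f, a, hf, rfl⟩ (hfT q hq).2
      · rintro ⟨f, a, hf, hfT⟩
        exact ⟨f, a, hf, Or.inl hfT⟩
    have e1 : ∀ q ∈ R, tn T' q.1 = tn T q.1 := fun q hq => by
      ext p
      rw [mem_tn_occAt, mem_tn_occAt, h1 q hq p]
    have e2 : ∀ q ∈ R, tn T' q.2 = tn T q.2 := fun q hq => by
      ext p
      rw [mem_tn_occAt, mem_tn_occAt, h2 q hq p]
    refine confluent_cg (T := T') ⟨hR, hL, fun q hq => ?_, Or.inr fun f hf => ?_⟩ hC
      fun q hq q' hq' p u σ ψ h3 h4 h5 hv => ?_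
    · rw [e1 q hq, e2 q hq, tn_nonempty_iff, tn_nonempty_iff]
      exact hT.i q hq
    · by_cases hc : ∀ q ∈ R, ¬ Occurs {f} q.1 ∧ ¬ Occurs {f} q.2
      · exact Or.inr ⟨hf, hc⟩
      · push Not at hc
        obtain ⟨q, hq, hc⟩ := hc
        by_cases h6 : Occurs {f} q.1
        · obtain ⟨p, f', a, hf', hff⟩ := h6
          have hff' : f' = f := hff
          subst hff'
          obtain ⟨f'', a', h7, h8⟩ := (h q hq p).1 ⟨f', a, hf', hf⟩
          rw [hf'] at h7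
          have h9 : f' = f'' := by
            have := Option.some.inj h7
            simp only [Tm.app.injEq] at this
            exact this.1
          exact Or.inl (h9 ▸ h8)
        · obtain ⟨p, f', a, hf', hff⟩ := hc h6
          have hff' : f' = f := hff
          subst hff'
          obtain ⟨f'', a', h7, h8⟩ := (h q hq p).2 ⟨f', a, hf', hf⟩
          rw [hf'] at h7
          have h9 : f' = f'' := by
            have := Option.some.inj h7
            simp only [Tm.app.injEq] at this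
            exact this.1
          exact Or.inl (h9 ▸ h8)
    · have h6 := ovC_of hL hT.iii hT.iv hq hq' h3 h4 h5 hv
      unfold OvC InhS InhT at h6 ⊢
      rw [e1 q hq, e1 q' hq', e2 q hq, e2 q' hq']
      exact h6

end Pool.Agent.Work.MP_d87e04_lc.CG
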