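import Pool.Agent.Work.MP_d87e04_lc.CG.TLv

/-!
# Module TNice (M): general properties of the ancestor sets

Structural induction on the proof term, as in `CF/Nice.lean`, `CF/Par.lean`.

* `ac_rl_var`: by `not_mem_tn_of_var` and `along_append`.
* `ac_tn`: for `rl q σ`: by `tn_subst_cases` `e ∈ tn q.2`, ancestors `tn q.1 ⊆ tn (q.1 σ)`
  (`tn_subset_subst`), or `e = k ++ n` with `q.2.subAt k = var x`, `n ∈ tn (σ x)`, ancestor
  `vpos q.1 x ++ n ∈ tn (q.1 σ)` (`vpos_spec`, `mem_tn_subst`; `x` occurs in `q.1` by `hR.trs`).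
* `nice`: `anc_sub` in the same way with `tv`; `anc_ne`: for `e ∈ tn q.2` by `hR.cr`; `sup_sub`,
  `desc` by induction (for `rl` the hypothesis `p ∉ sup` is false).
-/

set_option autoImplicit false

namespace Pool.Agent.Work.MP_d87e04_lc.CG

open Pool.Agent.Work.MP_d87e04_lc.CF

universe u

variable {F : Type u} {ar : F → ℕ} {T : Set F}

@[simp] theorem ac_ofTm (t : Tm F ar) (p : List ℕ) : ac T (PT.ofTm t) p = {p} := by
  induction t generalizing p with
  | var x => simp [PT.ofTm, ac]
  | app f a ih =>
    cases p with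
    | nil => simp [PT.ofTm, ac]
    | cons i p =>
      simp only [PT.ofTm, ac]
      split
      · rename_i h
        rw [ih ⟨i, h⟩ p]
        simp
      · rfl

@[simp] theorem sp_ofTm (t : Tm F ar) : sp T (PT.ofTm t) = ∅ := by
  induction t with
  | var x => simp [PT.ofTm, sp]
  | app f a ih =>
    simp only [PT.ofTm, sp, ih, Finset.image_empty]
    ext p
    simp

theorem ac_rl_tn {q : Rule F ar} {σ : ℕ → Tm F ar} {e : List ℕ} (h : e ∈ tn T q.2) :
    ac T (PT.rl q σ) e = tn T q.1 := by
  simp only [ac]
  rw [if_pos h]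

theorem ac_rl_var {q : Rule F ar} {σ : ℕ → Tm F ar} {k : List ℕ} {x : ℕ}
    (h : q.2.subAt k = some (Tm.var x)) (n : List ℕ) :
    ac T (PT.rl q σ) (k ++ n) = {vpos q.1 x ++ n} := by
  simp only [ac]
  rw [if_neg (not_mem_tn_of_var h n), along_append h]

/-- The ancestors of a `T`-symbol are `T`-symbols. -/
theorem ac_tn {R : Set (Rule F ar)} (hR : Cg R T) {A : PT F ar} (hA : A.OK R) :
    ∀ e ∈ tn T A.tgt, ac T A e ⊆ tn T A.src := by
  induction A with
  | var x =>
    intro e he
    simp only [PT.tgt] at he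
    exact absurd he not_mem_tn_var
  | app f A ih =>
    intro e he
    simp only [PT.tgt] at he
    simp only [PT.src]
    cases e with
    | nil =>
      intro p hp
      simp only [ac, Finset.mem_singleton] at hp
      subst hp
      exact nil_mem_tn.2 (nil_mem_tn.1 he)
    | cons i e =>
      obtain ⟨hi, he⟩ := mem_tn_cons.1 he
      intro p hp
      simp only [ac, dif_pos hi, Finset.mem_image] at hp
      obtain ⟨p', hp', rfl⟩ := hp
      exact mem_tn_cons.2 ⟨hi, ih ⟨i, hi⟩ (hA ⟨i, hi⟩) e he hp'⟩
  | rl q σ =>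
    intro e he
    have hq : q ∈ R := hA
    simp only [PT.tgt] at he
    simp only [PT.src]
    rcases tn_subst_cases he with h1 | ⟨k, x, n, h1, h2, rfl⟩
    · rw [ac_rl_tn h1]
      exact tn_subset_subst _ _
    · rw [ac_rl_var h1]
      intro p hp
      rw [Finset.mem_singleton] at hp
      subst hp
      have hocc : 0 < q.1.occ x := (hR.trs q hq).2 x (occ_of_subAt h1)
      exact (mem_tn_subst (vpos_spec hocc) σ n).2 h2

theorem nice {R : Set (Rule F ar)} (hR : Cg R T) {A : PT F ar} (hA : A.OK R) :
    (cal ar T).Nice A := by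
  refine ⟨?_, ?_, ?_, ?_⟩
  · change ∀ e ∈ tv T A.tgt, ac T A e ⊆ tv T A.src
    induction A with
    | var x =>
      intro e he p hp
      simp only [ac, Finset.mem_singleton] at hp
      subst hp
      exact he
    | app f A ih =>
      intro e he
      simp only [PT.tgt] at he
      simp only [PT.src]
      cases e with
      | nil =>
        intro p hp
        simp only [ac, Finset.mem_singleton] at hp
        subst hp
        exact nil_mem_tv.2 (nil_mem_tv.1 he)
      | cons i e =>
        obtain ⟨hi, he⟩ := mem_tv_cons.1 he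
        intro p hp
        simp only [ac, dif_pos hi, Finset.mem_image] at hp
        obtain ⟨p', hp', rfl⟩ := hp
        exact mem_tv_cons.2 ⟨hi, ih ⟨i, hi⟩ (hA ⟨i, hi⟩) e he hp'⟩
    | rl q σ =>
      intro e he
      have hq : q ∈ R := hA
      simp only [PT.tgt] at he
      simp only [PT.src]
      rcases tv_subst_cases he with h1 | ⟨k, x, n, h1, h2, rfl⟩
      · rw [ac_rl_tn h1]
        exact fun p hp => tn_subset_tv _ (tn_subset_subst _ _ hp)
      · rw [ac_rl_var h1]
        intro p hp
        rw [Finset.mem_singleton] at hp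
        subst hp
        have hocc : 0 < q.1.occ x := (hR.trs q hq).2 x (occ_of_subAt h1)
        exact (mem_tv_subst (vpos_spec hocc) σ n).2 h2
  · change ∀ e ∈ tv T A.tgt, (ac T A e).Nonempty
    induction A with
    | var x =>
      intro e _
      exact ⟨e, by simp [ac]⟩
    | app f A ih =>
      intro e he
      simp only [PT.tgt] at he
      cases e with
      | nil => exact ⟨[], by simp [ac]⟩
      | cons i e =>
        obtain ⟨hi, he⟩ := mem_tv_cons.1 he
        obtain ⟨p, hp⟩ := ih ⟨i, hi⟩ (hA ⟨i, hi⟩) e he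
        refine ⟨i :: p, ?_⟩
        simp only [ac, dif_pos hi, Finset.mem_image]
        exact ⟨p, hp, rfl⟩
    | rl q σ =>
      intro e he
      have hq : q ∈ R := hA
      simp only [PT.tgt] at he
      rcases tv_subst_cases he with h1 | ⟨k, x, n, h1, h2, rfl⟩
      · rw [ac_rl_tn h1]
        exact hR.cr q hq ⟨e, h1⟩
      · rw [ac_rl_var h1]
        exact Finset.singleton_nonempty _
  · change sp T A ⊆ tv T A.src
    clear hA
    induction A with
    | var x => intro p hp; simp [sp] at hp
    | app f A ih =>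
      intro p hp
      cases p with
      | nil => exact absurd hp nil_not_mem_sp
      | cons i p =>
        obtain ⟨hi, hp⟩ := mem_sp_cons.1 hp
        exact mem_tv_cons.2 ⟨hi, ih _ hp⟩
    | rl q σ => exact fun p hp => by simpa [sp, PT.src] using hp
  · change ∀ p ∈ tv T A.src, p ∉ sp T A → ∃ e ∈ tv T A.tgt, p ∈ ac T A e
    clear hA
    induction A with
    | var x =>
      intro p hp _
      exact ⟨p, hp, by simp [ac]⟩
    | app f A ih =>
      intro p hp hs
      cases p with
      | nil =>
        refine ⟨[], nil_mem_tv.2 (nil_mem_tv.1 hp), ?_⟩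
        simp [ac]
      | cons i p =>
        obtain ⟨hi, hp⟩ := mem_tv_cons.1 hp
        obtain ⟨e, he, hea⟩ := ih ⟨i, hi⟩ p hp fun h => hs (mem_sp_cons.2 ⟨hi, h⟩)
        refine ⟨i :: e, mem_tv_cons.2 ⟨hi, he⟩, ?_⟩
        simp only [ac, dif_pos hi, Finset.mem_image]
        exact ⟨p, hea, rfl⟩
    | rl q σ =>
      intro p hp hs
      exact absurd (by simpa [sp, PT.src] using hp) hs

end Pool.Agent.Work.MP_d87e04_lc.CG
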