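import Pool.Agent.Work.MP_d87e04_lc.CG.TAtp
import Pool.Agent.Work.MP_d87e04_lc.CG.TCut

/-!
# Module TStar (M): common ancestors in the two sides of a critical pair

`v = q.1 σ'` is the common source; all `T`-symbols of `v` are in the pattern of `q.1` or of `q'.1`
at `p` (hypothesis `hN`; `NN` is defined in `Defs.lean`). Let `h ∈ tn (q.2 σ')` and
`e ∈ tn (v.repl p (q'.2 ψ'))` (`= tn (atp v p (rl q' ψ')).tgt`).

For `h` (`tn_subst_cases`): (h1) `h ∈ tn q.2`, `ac X h = tn q.1`; or (h2) `h = k ++ n`,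
`q.2.subAt k = var y`, `n ∈ tn (σ' y)`, `ac X h = {vpos q.1 y ++ n}`, and `vpos q.1 y ++ n ∈ tn v`
is below the variable `y` of `q.1`, so by `hN` it is `p ++ m` with `m ∈ tn q'.1` (the symbol there
is the symbol of `v`, it is in `T`), and `InhS` holds: `vpos q.1 y` is comparable with `p`; it is
not a proper prefix of `p` and not `p` (the subterm of `q.1` at `p` is not a variable), so
`vpos q.1 y = p ++ m₁`, `m = m₁ ++ n`, and `y` occurs in `q.2`.

For `e` (`tn_tgt_atp`, then `tn_subst_cases` for `q'.2 ψ'`): (e1) `e = p ++ e'`, `e' ∈ tn q'.2`,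
`ac Y e` = image of `tn q'.1` (`ac_atp_below`, `ac_rl_tn`); (e2) `e = p ++ (k ++ n)`,
`q'.2.subAt k = var x`, `ac Y e = {p ++ (vpos q'.1 x ++ n)}`; this position is in `tn v` and below
a variable of `q'.1` at `p`, so by `hN` it is in `tn q.1` and `InhT` holds (second alternative:
`x` occurs in `q'.2`); (e3) `¬ p <+: e`, `e ∈ tn v`, `ac Y e = {e}`, by `hN` `e ∈ tn q.1`, and
`InhT` holds (first alternative).

Combine with `OvC`: (h1,e1): the first part of `OvC` gives `m ∈ tn q'.1`, `p ++ m ∈ tn q.1` (the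
other two alternatives contradict `e' ∈ tn q'.2`, `h ∈ tn q.2`); (h1,e2), (h1,e3): the ancestor of
`e` is in `tn q.1`; (h2,e1): the ancestor `p ++ m` of `h` is in the image of `tn q'.1`; (h2,e2),
(h2,e3): contradiction with the second part of `OvC`.
-/

set_option autoImplicit false

namespace Pool.Agent.Work.MP_d87e04_lc.CG

open Pool.Agent.Work.MP_d87e04_lc.CF

universe u

variable {F : Type u} {ar : F → ℕ} {T : Set F}

/-- The tracked symbols of the common source are in one of the two patterns. -/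
private theorem tn_cases {g l v : Tm F ar} {p : List ℕ} {σ ψ : ℕ → Tm F ar}
    (hv : v = g.subst σ) (hp : v.subAt p = some (l.subst ψ)) {k : List ℕ}
    (hk : k ∈ tn T v) (hN : k ∈ NN g l p) :
    k ∈ tn T g ∨ ∃ m ∈ tn T l, k = p ++ m := by
  obtain ⟨f, a, hf, hfT⟩ := mem_tn_iff.1 hk
  rcases hN with ⟨f', a', h⟩ | ⟨m, f', a', rfl, h⟩
  · left
    have h3 := Tm.subAt_subst σ _ _ _ h
    rw [hv] at hf
    rw [hf, Tm.subst_app, Option.some.injEq] at h3
    have h5 := (Tm.app.inj h3).1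
    subst h5
    exact mem_tn_iff.2 ⟨_, _, h, hfT⟩
  · right
    refine ⟨m, ?_, rfl⟩
    rw [subAt_append hp] at hf
    have h3 := Tm.subAt_subst ψ _ _ _ h
    rw [hf, Tm.subst_app, Option.some.injEq] at h3
    have h5 := (Tm.app.inj h3).1
    subst h5
    exact mem_tn_iff.2 ⟨_, _, h, hfT⟩

private theorem subAt_var_append {t : Tm F ar} {k c : List ℕ} {x : ℕ} {u : Tm F ar}
    (h : t.subAt k = some (Tm.var x)) (h' : t.subAt (k ++ c) = some u) : u = Tm.var x := by
  rw [subAt_append h] at h'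
  cases c with
  | nil => exact (Option.some.inj h').symm
  | cons i c => cases h'

theorem star {R : Set (Rule F ar)} (hR : Cg R T) {q q' : Rule F ar} (hq : q ∈ R)
    (hq' : q' ∈ R) {p : List ℕ} {u : Tm F ar} {σ' ψ' : ℕ → Tm F ar}
    (h1 : q.1.subAt p = some u) (h2 : ∀ x, u ≠ Tm.var x)
    (h4 : u.subst σ' = q'.1.subst ψ')
    (hN : ∀ e ∈ tn T (q.1.subst σ'), e ∈ NN q.1 q'.1 p)
    (hO : OvC T q'.1 q'.2 q.1 q.2 p) {h e : List ℕ} (hh : h ∈ tn T (q.2.subst σ'))
    (he : e ∈ tn T (PT.atp (q.1.subst σ') p (PT.rl q' ψ')).tgt) :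
    ∃ f ∈ ac T (PT.rl q σ') h, f ∈ ac T (PT.atp (q.1.subst σ') p (PT.rl q' ψ')) e := by
  have hp : (q.1.subst σ').subAt p = some (q'.1.subst ψ') := by
    rw [← h4]
    exact Tm.subAt_subst σ' _ _ _ h1
  have hA : ∀ k ∈ tn T (q.1.subst σ'), k ∈ tn T q.1 ∨ ∃ m ∈ tn T q'.1, k = p ++ m :=
    fun k hk => tn_cases rfl hp hk (hN k hk)
  have hH : (h ∈ tn T q.2 ∧ ac T (PT.rl q σ') h = tn T q.1) ∨
      (InhS T q'.1 q.1 q.2 p ∧ ∃ m ∈ tn T q'.1, ac T (PT.rl q σ') h = {p ++ m}) := by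
    rcases tn_subst_cases hh with h5 | ⟨k, y, n, hk, hn, rfl⟩
    · exact Or.inl ⟨h5, ac_rl_tn h5⟩
    · right
      have hoy : 0 < q.2.occ y := occ_of_subAt hk
      have hv := vpos_spec ((hR.trs q hq).2 y hoy)
      have h6 : vpos q.1 y ++ n ∈ tn T (q.1.subst σ') := (mem_tn_subst hv σ' n).2 hn
      rcases hA _ h6 with h7 | ⟨m, hm, h7⟩
      · exact absurd h7 (not_mem_tn_of_var hv n)
      · rcases List.append_eq_append_iff.1 h7 with ⟨c, hc, hc'⟩ | ⟨c, hc, hc'⟩
        · exfalso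
          rw [hc] at h1
          exact h2 y (subAt_var_append hv h1)
        · refine ⟨⟨c, n, y, ?_, ?_, hoy⟩, m, hm, ?_⟩
          · rw [← hc']
            exact hm
          · rw [← hc]
            exact hv
          · rw [ac_rl_var hk, h7]
  have hE : (∃ e' ∈ tn T q'.2, ac T (PT.atp (q.1.subst σ') p (PT.rl q' ψ')) e =
        (tn T q'.1).image (p ++ ·)) ∨
      (InhT T q'.1 q'.2 q.1 p ∧ ∃ g ∈ tn T q.1,
        ac T (PT.atp (q.1.subst σ') p (PT.rl q' ψ')) e = {g}) := by
    have hp' : (q.1.subst σ').subAt p = some (PT.rl q' ψ').src := hp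
    rcases tn_tgt_atp hp' he with ⟨e', rfl, he'⟩ | ⟨h5, h6⟩
    · have he'' : e' ∈ tn T (q'.2.subst ψ') := he'
      rcases tn_subst_cases he'' with h5 | ⟨k, x, n, hk, hn, rfl⟩
      · left
        refine ⟨e', h5, ?_⟩
        rw [ac_atp_below hp', ac_rl_tn h5]
      · right
        have hox : 0 < q'.2.occ x := occ_of_subAt hk
        have hv := vpos_spec ((hR.trs q' hq').2 x hox)
        have h6 : vpos q'.1 x ++ n ∈ tn T (q'.1.subst ψ') := (mem_tn_subst hv ψ' n).2 hn
        have h7 : p ++ (vpos q'.1 x ++ n) ∈ tn T (q.1.subst σ') := by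
          obtain ⟨f, a, hf, hfT⟩ := mem_tn_iff.1 h6
          refine mem_tn_iff.2 ⟨f, a, ?_, hfT⟩
          rw [subAt_append hp]
          exact hf
        rcases hA _ h7 with h8 | ⟨m, hm, h8⟩
        · refine ⟨Or.inr ⟨_, _, x, h8, hv, hox⟩, _, h8, ?_⟩
          rw [ac_atp_below hp', ac_rl_var hk, Finset.image_singleton]
        · exfalso
          have h9 := List.append_cancel_left h8
          rw [← h9] at hm
          exact not_mem_tn_of_var hv n hm
    · right
      rcases hA _ h6 with h8 | ⟨m, hm, h8⟩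
      · exact ⟨Or.inl ⟨e, h8, h5⟩, e, h8, ac_atp_else hp' h5⟩
      · exact absurd ⟨m, h8.symm⟩ h5
  rcases hH with ⟨hh2, hac⟩ | ⟨hS, m, hm, hac⟩
  · rcases hE with ⟨e', he', hae⟩ | ⟨-, g, hg, hae⟩
    · rcases hO.1 with ⟨m, hm, hpm⟩ | h0 | h0
      · exact ⟨p ++ m, by rw [hac]; exact hpm, by
          rw [hae]; exact Finset.mem_image_of_mem _ hm⟩
      · rw [h0] at he'
        exact absurd he' (Finset.notMem_empty _)
      · rw [h0] at hh2
        exact absurd hh2 (Finset.notMem_empty _)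
    · exact ⟨g, by rw [hac]; exact hg, by rw [hae]; exact Finset.mem_singleton_self _⟩
  · rcases hE with ⟨e', he', hae⟩ | ⟨hT, -⟩
    · exact ⟨p ++ m, by rw [hac]; exact Finset.mem_singleton_self _, by
        rw [hae]; exact Finset.mem_image_of_mem _ hm⟩
    · rcases hO.2 with h0 | h0
      · exact absurd hS h0
      · exact absurd hT h0

end Pool.Agent.Work.MP_d87e04_lc.CG
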