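import Pool.Agent.Work.MP_d87e04_lc.CG.Defs

/-!
# Weights: the local inequalities
-/

set_option autoImplicit false
set_option linter.unusedSectionVars false

namespace Pool.Agent.Work.MP_d87e04_lc.CG

namespace Cal

variable {T S P : Type*} [DecidableEq P] (K : Cal T S P)

/-- Positive weights. -/
def Pos (t : T) (w : P → ℕ) : Prop := ∀ p ∈ K.lv t, 1 ≤ w p

/-- Comparison of weights. -/
def Le (t : T) (w w' : P → ℕ) : Prop := ∀ p ∈ K.lv t, w p ≤ w' p

variable {K}

theorem up_pos (A : S) (w : P → ℕ) (t : T) : K.Pos t (K.up A w) := fun _ _ => le_max_left _ _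

theorem up_pos' (A : S) (w : P → ℕ) (p : P) : 1 ≤ K.up A w p := le_max_left _ _

theorem dn_pos {A : S} (hA : K.Nice A) {w : P → ℕ} (h : K.Pos (K.src A) w) :
    K.Pos (K.tgt A) (K.dn A w) := by
  intro e he
  obtain ⟨f, hf⟩ := hA.anc_ne e he
  have h1 : w f ≤ ∑ f ∈ K.anc A e, w f :=
    Finset.single_le_sum (f := w) (fun _ _ => Nat.zero_le _) hf
  exact (h f (hA.anc_sub e he hf)).trans h1

theorem up_mono {A : S} {w w' : P → ℕ} (h : K.Le (K.tgt A) w w') (p : P) :
    K.up A w p ≤ K.up A w' p := by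
  refine max_le_max le_rfl (Finset.sum_le_sum fun e he => h e (Finset.mem_filter.1 he).1)

theorem dn_mono {A : S} (hA : K.Nice A) {w w' : P → ℕ} (h : K.Le (K.src A) w w') :
    K.Le (K.tgt A) (K.dn A w) (K.dn A w') := fun e he =>
  Finset.sum_le_sum fun f hf => h f (hA.anc_sub e he hf)

theorem cost_mono {A : S} (hA : K.Nice A) {l l' r r' : P → ℕ} (hl : K.Le (K.src A) l l')
    (hr : K.Le (K.src A) r r') : K.cost A l r ≤ K.cost A l' r' :=
  Finset.sum_le_sum fun p hp =>
    Nat.mul_le_mul (hl p (hA.sup_sub hp)) (hr p (hA.sup_sub hp))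

theorem cost_comm (A : S) (l r : P → ℕ) : K.cost A l r = K.cost A r l :=
  Finset.sum_congr rfl fun _ _ => Nat.mul_comm _ _

/-- The adjunction inequality. -/
theorem adj {A : S} {U V : Finset P} (hU : U ⊆ K.lv (K.tgt A))
    (hUV : ∀ p ∈ U, K.anc A p ⊆ V) (l w : P → ℕ) :
    ∑ p ∈ U, l p * K.dn A w p ≤ ∑ g ∈ V, K.up A l g * w g := by
  have h1 : ∀ p ∈ U, l p * K.dn A w p = ∑ g ∈ V, if g ∈ K.anc A p then l p * w g else 0 := by
    intro p hp
    rw [← Finset.sum_filter]
    have : V.filter (fun g => g ∈ K.anc A p) = K.anc A p := by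
      ext g
      simp only [Finset.mem_filter]
      exact ⟨fun h => h.2, fun h => ⟨hUV p hp h, h⟩⟩
    rw [this, dn, Finset.mul_sum]
  rw [Finset.sum_congr rfl h1, Finset.sum_comm]
  refine Finset.sum_le_sum fun g _ => ?_
  rw [← Finset.sum_filter, ← Finset.sum_mul]
  refine Nat.mul_le_mul_right _ (le_max_of_le_right ?_)
  exact Finset.sum_le_sum_of_subset (Finset.filter_subset_filter _ hU)

/-- A sum of weights over a set of points, each with an ancestor in `E`, is at most the sum of the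
pulled back weights over `E`. -/
theorem sum_le_dn_up {A B : S} {e : P} {H : Finset P} (hH : H ⊆ K.lv (K.tgt B))
    (hc : ∀ h ∈ H, ∃ f ∈ K.anc A e, f ∈ K.anc B h) (w : P → ℕ) :
    ∑ h ∈ H, w h ≤ K.dn A (K.up B w) e := by
  classical
  have h1 : ∑ h ∈ H, w h ≤ ∑ h ∈ H, ∑ f ∈ K.anc A e, if f ∈ K.anc B h then w h else 0 := by
    refine Finset.sum_le_sum fun h hh => ?_
    obtain ⟨f, hf, hfh⟩ := hc h hh
    have h2 := Finset.single_le_sum (f := fun f => if f ∈ K.anc B h then w h else 0)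
      (fun _ _ => Nat.zero_le _) hf
    simp only [hfh, if_true] at h2
    exact h2
  refine h1.trans ?_
  rw [Finset.sum_comm, dn]
  refine Finset.sum_le_sum fun f _ => ?_
  rw [← Finset.sum_filter]
  exact le_max_of_le_right (Finset.sum_le_sum_of_subset (Finset.filter_subset_filter _ hH))

/-! ### Squares -/

theorem Sq.symm {A B C D : S} (h : K.Sq A B C D) : K.Sq B A D C where
  src_eq := h.src_eq.symm
  srcC := h.srcD
  srcD := h.srcC
  tgt_eq := h.tgt_eq.symm
  comm := fun w hw e he e' he' => by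
    obtain ⟨f, h1, h2⟩ := h.comm w (by rw [h.tgt_eq]; exact hw) e' he' e he
    exact ⟨f, h2, h1⟩
  inj := fun w hw w' hw' e h1 h2 e' h3 h4 => h.inj w (by rw [h.tgt_eq]; exact hw) w'
    (by rw [h.tgt_eq]; exact hw') e' h3 h4 e h1 h2
  supC := h.supD
  supD := h.supC

/-- The weights do not increase (first side). -/
theorem Sq.up_dn_le {A B C D : S} (h : K.Sq A B C D) (hA : K.Nice A) (hD : K.Nice D)
    (r : P → ℕ) {e : P} (he : e ∈ K.lv (K.tgt A)) :
    K.up C (K.dn D r) e ≤ K.dn A (K.up B r) e := by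
  classical
  refine max_le (dn_pos hA (up_pos B r _) e he) ?_
  set W := (K.lv (K.tgt C)).filter (fun w => e ∈ K.anc C w) with hW
  have hdis : ∀ w ∈ W, ∀ w' ∈ W, w ≠ w' → Disjoint (K.anc D w) (K.anc D w') := by
    intro w hw w' hw' hne
    refine Finset.disjoint_left.2 fun x hx hx' => hne ?_
    have h1 := Finset.mem_filter.1 hw
    have h2 := Finset.mem_filter.1 hw'
    exact h.inj w h1.1 w' h2.1 e h1.2 h2.2 x hx hx'
  have h1 : ∑ w ∈ W, K.dn D r w = ∑ x ∈ W.biUnion (K.anc D), r x := by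
    rw [Finset.sum_biUnion]
    · rfl
    · intro w hw w' hw' hne
      exact hdis w hw w' hw' hne
  rw [h1]
  refine sum_le_dn_up (A := A) (B := B) ?_ ?_ r
  · intro x hx
    obtain ⟨w, hw, hx⟩ := Finset.mem_biUnion.1 hx
    rw [← h.srcD]
    refine hD.anc_sub w ?_ hx
    rw [← h.tgt_eq]
    exact (Finset.mem_filter.1 hw).1
  · intro x hx
    obtain ⟨w, hw, hx⟩ := Finset.mem_biUnion.1 hx
    have h2 := Finset.mem_filter.1 hw
    exact h.comm w h2.1 e h2.2 x hx

theorem Sq.cost_le {A B C D : S} (h : K.Sq A B C D) (hA : K.Nice A) (hC : K.Nice C)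
    (hD : K.Nice D) (l r : P → ℕ) :
    K.cost C l (K.up C (K.dn D r)) ≤ K.cost B (K.up A l) (K.up B r) := by
  have hs : K.sup C ⊆ K.lv (K.tgt A) := by
    rw [← h.srcC]
    exact hC.sup_sub
  have h1 : K.cost C l (K.up C (K.dn D r)) ≤ ∑ p ∈ K.sup C, l p * K.dn A (K.up B r) p :=
    Finset.sum_le_sum fun p hp => Nat.mul_le_mul_left _ (h.up_dn_le hA hD r (hs hp))
  exact h1.trans (adj (A := A) hs h.supC l (K.up B r))

/-! ### Triangles -/

theorem Tri.up_le {X Y Z : S} (h : K.Tri X Y Z) (hX : K.Nice X) (r : P → ℕ) {p : P}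
    (hp : p ∈ K.lv (K.tgt X)) : K.up Z r p ≤ K.dn X (K.up Y r) p := by
  refine max_le (dn_pos hX (up_pos Y r _) p hp) ?_
  refine sum_le_dn_up (A := X) (B := Y) ?_ ?_ r
  · intro e he
    rw [← h.tgtZ]
    exact (Finset.mem_filter.1 he).1
  · intro e he
    have h1 := Finset.mem_filter.1 he
    exact h.comm e (by rw [← h.tgtZ]; exact h1.1) p h1.2

theorem Tri.dn_le {X Y Z : S} (h : K.Tri X Y Z) (hZ : K.Nice Z) (l : P → ℕ) {e : P}
    (he : e ∈ K.lv (K.tgt Y)) : K.dn Z l e ≤ K.dn Y (K.up X l) e := by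
  refine sum_le_dn_up (A := Y) (B := X) ?_ ?_ l
  · rw [← h.srcZ]
    exact hZ.anc_sub e (by rw [h.tgtZ]; exact he)
  · intro x hx
    obtain ⟨f, h1, h2⟩ := h.comm e he x hx
    exact ⟨f, h2, h1⟩

theorem Tri.cost_lt {X Y Z : S} (h : K.Tri X Y Z) (hX : K.Nice X) (hZ : K.Nice Z)
    (l r : P → ℕ) :
    K.cost Z l (K.up Z r) < K.cost X (K.up X l) (K.up Y r) + K.cost Y (K.up X l) (K.up Y r) := by
  have hs : K.sup Z ⊆ K.lv (K.tgt X) := by
    rw [← h.srcZ]
    exact hZ.sup_sub
  have h1 : K.cost Z l (K.up Z r) ≤ ∑ p ∈ K.sup Z, l p * K.dn X (K.up Y r) p :=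
    Finset.sum_le_sum fun p hp => Nat.mul_le_mul_left _ (h.up_le hX r (hs hp))
  have h2 := adj (A := X) (U := K.sup Z) (V := K.sup X ∪ K.sup Y) hs h.supZ l (K.up Y r)
  refine lt_of_le_of_lt (h1.trans h2) ?_
  have h3 := Finset.sum_union_inter (s₁ := K.sup X) (s₂ := K.sup Y)
    (f := fun g => K.up X l g * K.up Y r g)
  have h4 : 0 < ∑ g ∈ K.sup X ∩ K.sup Y, K.up X l g * K.up Y r g := by
    refine Finset.sum_pos (fun g _ => ?_) h.meet
    exact Nat.mul_pos (lt_of_lt_of_le Nat.zero_lt_one (le_max_left _ _))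
      (lt_of_lt_of_le Nat.zero_lt_one (le_max_left _ _))
  simp only [cost]
  omega

/-! ### Splittings -/

theorem Split.up_rest_le {A α A' : S} (h : K.Split A α A') (l : P → ℕ) {m f : P}
    (hf : f ∈ K.anc α m) : K.up A' l m ≤ K.up A l f := by
  refine max_le_max le_rfl (Finset.sum_le_sum_of_subset fun e he => ?_)
  have h1 := Finset.mem_filter.1 he
  have h2 : e ∈ K.lv (K.tgt A) := by rw [← h.tgtA']; exact h1.1
  exact Finset.mem_filter.2 ⟨h2, h.sub e h2 m h1.2 hf⟩

theorem Split.up_le {A α A' : S} (h : K.Split A α A') (hA' : K.Nice A') {l : P → ℕ}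
    (hl : K.Pos (K.tgt A) l) (p : P) : K.up α (K.up A' l) p ≤ K.up A l p := by
  classical
  by_cases hc : ∃ m ∈ K.lv (K.tgt α), p ∈ K.anc α m ∧ m ∈ K.sup A'
  · obtain ⟨m, hm, hmp, hms⟩ := hc
    have h1 : (K.lv (K.tgt α)).filter (fun e => p ∈ K.anc α e) = {m} := by
      ext m'
      simp only [Finset.mem_filter, Finset.mem_singleton]
      constructor
      · rintro ⟨h2, h3⟩
        exact (h.supA' m hms p hmp).2.2 m' h2 h3
      · rintro rfl
        exact ⟨hm, hmp⟩
    refine max_le (le_max_left _ _) ?_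
    rw [h1, Finset.sum_singleton]
    exact h.up_rest_le l hmp
  · push Not at hc
    refine max_le (le_max_left _ _) (le_max_of_le_right ?_)
    have h1 : ∀ m ∈ (K.lv (K.tgt α)).filter (fun e => p ∈ K.anc α e),
        K.up A' l m = ∑ e ∈ (K.lv (K.tgt A')).filter (fun e => m ∈ K.anc A' e), l e := by
      intro m hm
      have h2 := Finset.mem_filter.1 hm
      refine max_eq_right ?_
      obtain ⟨e, he, hem⟩ := hA'.desc m (by rw [h.mid]; exact h2.1) (hc m h2.1 h2.2)
      have h3 : l e ≤ ∑ e ∈ (K.lv (K.tgt A')).filter (fun e => m ∈ K.anc A' e), l e :=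
        Finset.single_le_sum (f := l) (fun _ _ => Nat.zero_le _) (Finset.mem_filter.2 ⟨he, hem⟩)
      exact (hl e (by rw [← h.tgtA']; exact he)).trans h3
    rw [Finset.sum_congr rfl h1]
    rw [← Finset.sum_biUnion]
    · refine Finset.sum_le_sum_of_subset fun e he => ?_
      obtain ⟨m, hm, hem⟩ := Finset.mem_biUnion.1 he
      have h2 := Finset.mem_filter.1 hm
      have h3 := Finset.mem_filter.1 hem
      have h4 : e ∈ K.lv (K.tgt A) := by rw [← h.tgtA']; exact h3.1
      exact Finset.mem_filter.2 ⟨h4, h.sub e h4 m h3.2 h2.2⟩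
    · intro m hm m' hm' hff
      refine Finset.disjoint_left.2 fun e he he' => hff ?_
      have h2 := Finset.mem_filter.1 hm
      have h2' := Finset.mem_filter.1 hm'
      have h3 := Finset.mem_filter.1 he
      have h3' := Finset.mem_filter.1 he'
      exact h.inj e (by rw [← h.tgtA']; exact h3.1) m h3.2 m' h3'.2 p h2.2 h2'.2

theorem Split.dn_le {A α A' : S} (h : K.Split A α A') (r : P → ℕ) {e : P}
    (he : e ∈ K.lv (K.tgt A)) : K.dn A' (K.dn α r) e ≤ K.dn A r e := by
  classical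
  have h1 : K.dn A' (K.dn α r) e = ∑ f ∈ (K.anc A' e).biUnion (K.anc α), r f := by
    rw [Finset.sum_biUnion]
    · rfl
    · intro m hm m' hm' hne
      refine Finset.disjoint_left.2 fun f hf hf' => hne ?_
      exact h.inj e he m hm m' hm' f hf hf'
  rw [h1]
  refine Finset.sum_le_sum_of_subset fun f hf => ?_
  obtain ⟨m, hm, hf⟩ := Finset.mem_biUnion.1 hf
  exact h.sub e he m hm hf

theorem Split.cost_le {A α A' : S} (h : K.Split A α A') (hA' : K.Nice A') {l r : P → ℕ}
    (hl : K.Pos (K.tgt A) l) :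
    K.cost A' (K.up A' l) (K.dn α r) + K.cost α (K.up α (K.up A' l)) r ≤
      K.cost A (K.up A l) r := by
  classical
  have h1 : K.cost A' (K.up A' l) (K.dn α r) ≤
      ∑ g ∈ (K.sup A').biUnion (K.anc α), K.up A l g * r g := by
    rw [Finset.sum_biUnion]
    · refine Finset.sum_le_sum fun m _ => ?_
      rw [dn, Finset.mul_sum]
      exact Finset.sum_le_sum fun f hf => Nat.mul_le_mul_right _ (h.up_rest_le l hf)
    · intro m hm m' hm' hne
      refine Finset.disjoint_left.2 fun f hf hf' => hne ?_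
      refine ((h.supA' m hm f hf).2.2 m' ?_ hf').symm
      rw [← h.mid]
      exact hA'.sup_sub hm'
  have h2 : K.cost α (K.up α (K.up A' l)) r ≤ ∑ g ∈ K.sup α, K.up A l g * r g :=
    Finset.sum_le_sum fun g _ => Nat.mul_le_mul_right _ (h.up_le hA' hl g)
  refine (Nat.add_le_add h1 h2).trans ?_
  rw [← Finset.sum_union]
  · refine Finset.sum_le_sum_of_subset ?_
    refine Finset.union_subset (fun g hg => ?_) h.supα
    obtain ⟨m, hm, hg⟩ := Finset.mem_biUnion.1 hg
    exact (h.supA' m hm g hg).1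
  · refine Finset.disjoint_left.2 fun g hg hg' => ?_
    obtain ⟨m, hm, hg⟩ := Finset.mem_biUnion.1 hg
    exact (h.supA' m hm g hg).2.1 hg'

end Cal

end Pool.Agent.Work.MP_d87e04_lc.CG
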